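import Mathlib
import Pool.Agent.Hhelper79.LT.Basic

set_option autoImplicit false

/-!
A boolean certificate checker for `Attains n m` (any even `n`): the square is given by a table,
the hitting set and the disjoint transversals by lists, and the hitting property is checked with
the Delta-lemma (only the cells with nonzero Delta outside the hitting set are enumerated).
-/

namespace Pool.Agent.Hhelper6.LT

open Finset Pool.Agent.Hhelper79.LT

/-- table entry, reduced mod `n` -/
def ent (n : ℕ) (t : List (List ℕ)) (i j : ℕ) : ℕ := ((t.getD i []).getD j 0) % n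

/-- the Delta value of a cell -/
def dlt (n : ℕ) (t : List (List ℕ)) (i j : ℕ) : ℕ := (ent n t i j + (2 * n - i - j)) % n

/-- column, symbol and Delta of the cells of row `i` outside `H` with nonzero Delta -/
def opts (n : ℕ) (t : List (List ℕ)) (H : List (ℕ × ℕ)) (i : ℕ) : List (ℕ × ℕ × ℕ) :=
  (List.range n).filterMap (fun j =>
    if dlt n t i j = 0 ∨ (i, j) ∈ H then none else some (j, ent n t i j, dlt n t i j))

/-- no choice of at most one option in every row, with distinct columns and symbols, has
Delta-sum `h` modulo `n` -/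
def go (n h : ℕ) : List (List (ℕ × ℕ × ℕ)) → List ℕ → List ℕ → ℕ → Bool
  | [], _, _, s => !(s % n == h)
  | (r :: rest), cols, syms, s =>
      go n h rest cols syms s &&
        r.all (fun o => cols.contains o.1 || syms.contains o.2.1 ||
          go n h rest (o.1 :: cols) (o.2.1 :: syms) (s + o.2.2))

theorem go_skip (n h : ℕ) (r : List (ℕ × ℕ × ℕ)) (rest : List (List (ℕ × ℕ × ℕ)))
    (cols syms : List ℕ) (s : ℕ) (hg : go n h (r :: rest) cols syms s = true) :
    go n h rest cols syms s = true := by
  unfold go at hg
  exact ((Bool.and_eq_true _ _).mp hg).1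

theorem go_take (n h : ℕ) (r : List (ℕ × ℕ × ℕ)) (rest : List (List (ℕ × ℕ × ℕ)))
    (cols syms : List ℕ) (s : ℕ) (hg : go n h (r :: rest) cols syms s = true)
    (o : ℕ × ℕ × ℕ) (ho : o ∈ r) (h1 : o.1 ∉ cols) (h2 : o.2.1 ∉ syms) :
    go n h rest (o.1 :: cols) (o.2.1 :: syms) (s + o.2.2) = true := by
  unfold go at hg
  have h3 := ((Bool.and_eq_true _ _).mp hg).2
  rw [List.all_eq_true] at h3
  have h4 := h3 o ho
  rw [Bool.or_eq_true, Bool.or_eq_true] at h4
  rcases h4 with (h4 | h4) | h4
  · exact absurd (by simpa using h4) h1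
  · exact absurd (by simpa using h4) h2
  · exact h4

/-- soundness of `go` -/
theorem go_sound (n h : ℕ) (t : List (List ℕ)) (H : List (ℕ × ℕ)) (f : ℕ → ℕ)
    (hf : ∀ i < n, f i < n) (hH : ∀ i < n, (i, f i) ∉ H) :
    ∀ (rows : List ℕ) (cols syms : List ℕ) (s : ℕ), (∀ i ∈ rows, i < n) →
      (∀ i ∈ rows, f i ∉ cols) → (∀ i ∈ rows, ent n t i (f i) ∉ syms) →
      (rows.map f).Nodup → (rows.map (fun i => ent n t i (f i))).Nodup →
      go n h (rows.map (opts n t H)) cols syms s = true →
      (s + (rows.map (fun i => dlt n t i (f i))).sum) % n ≠ h := by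
  intro rows
  induction rows with
  | nil =>
    intro cols syms s _ _ _ _ _ hg
    simpa [go] using hg
  | cons i rest ih =>
    intro cols syms s hlt hc hs hn1 hn2 hg
    rw [List.map_cons] at hg
    rw [List.map_cons, List.nodup_cons] at hn1 hn2
    have hi := hlt i (by simp)
    by_cases h0 : dlt n t i (f i) = 0
    · have := ih cols syms s (fun j hj => hlt j (by simp [hj])) (fun j hj => hc j (by simp [hj]))
        (fun j hj => hs j (by simp [hj])) hn1.2 hn2.2 (go_skip _ _ _ _ _ _ _ hg)
      simpa [h0] using this
    · have ho : (f i, ent n t i (f i), dlt n t i (f i)) ∈ opts n t H i := by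
        unfold opts
        rw [List.mem_filterMap]
        exact ⟨f i, List.mem_range.2 (hf i hi), by rw [if_neg (by push Not; exact ⟨h0, hH i hi⟩)]⟩
      have hg2 := go_take _ _ _ _ _ _ _ hg _ ho (hc i (by simp)) (hs i (by simp))
      have := ih (f i :: cols) (ent n t i (f i) :: syms) (s + dlt n t i (f i))
        (fun j hj => hlt j (by simp [hj])) ?_ ?_ hn1.2 hn2.2 hg2
      · rw [List.map_cons, List.sum_cons, ← Nat.add_assoc]
        exact this
      · intro j hj
        rw [List.mem_cons, not_or]
        refine ⟨?_, hc j (by simp [hj])⟩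
        intro e
        exact hn1.1 (e ▸ List.mem_map.2 ⟨j, hj, rfl⟩)
      · intro j hj
        rw [List.mem_cons, not_or]
        refine ⟨?_, hs j (by simp [hj])⟩
        intro e
        exact hn2.1 (List.mem_map.2 ⟨j, hj, e⟩)

/-- the whole certificate -/
def check (n h m : ℕ) (t : List (List ℕ)) (H : List (ℕ × ℕ)) (F : List (List ℕ)) : Bool :=
  (List.range n).all (fun i => decide ((List.range n).map (fun j => ent n t i j)).Nodup) &&
  (List.range n).all (fun j => decide ((List.range n).map (fun i => ent n t i j)).Nodup) &&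
  (List.range m).all (fun k => decide ((List.range n).map (fun i => ent n F k i)).Nodup) &&
  (List.range m).all (fun k =>
    decide ((List.range n).map (fun i => ent n t i (ent n F k i))).Nodup) &&
  (List.range n).all (fun i => decide ((List.range m).map (fun k => ent n F k i)).Nodup) &&
  decide (H.length ≤ m) &&
  go n h (((List.range n).map (opts n t H)).filter (fun l => !l.isEmpty)) [] [] 0

theorem inj_of_nodup {n : ℕ} {g : ℕ → ℕ} (h : ((List.range n).map g).Nodup) {i j : ℕ}
    (hi : i < n) (hj : j < n) (e : g i = g j) : i = j :=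
  List.inj_on_of_nodup_map h (List.mem_range.2 hi) (List.mem_range.2 hj) e

theorem go_filter (n h : ℕ) : ∀ (rows : List (List (ℕ × ℕ × ℕ))) (cols syms : List ℕ) (s : ℕ),
    go n h (rows.filter (fun l => !l.isEmpty)) cols syms s = true →
    go n h rows cols syms s = true := by
  intro rows
  induction rows with
  | nil => intro cols syms s hg; exact hg
  | cons r rest ih =>
    intro cols syms s hg
    by_cases hr : r = []
    · subst hr
      have e : (([] : List (ℕ × ℕ × ℕ)) :: rest).filter (fun l => !l.isEmpty)
          = rest.filter (fun l => !l.isEmpty) := by simp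
      rw [e] at hg
      unfold go
      rw [ih _ _ _ hg]
      rfl
    · have e : (r :: rest).filter (fun l => !l.isEmpty)
          = r :: rest.filter (fun l => !l.isEmpty) := by
        rw [List.filter_cons_of_pos]
        cases r with
        | nil => exact absurd rfl hr
        | cons a b => rfl
      rw [e] at hg
      unfold go
      rw [ih _ _ _ (go_skip _ _ _ _ _ _ _ hg), Bool.true_and, List.all_eq_true]
      intro o ho
      by_cases h1 : o.1 ∈ cols
      · rw [Bool.or_eq_true, Bool.or_eq_true]; exact Or.inl (Or.inl (by simpa using h1))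
      by_cases h2 : o.2.1 ∈ syms
      · rw [Bool.or_eq_true, Bool.or_eq_true]; exact Or.inl (Or.inr (by simpa using h2))
      rw [Bool.or_eq_true]
      exact Or.inr (ih _ _ _ (go_take _ _ _ _ _ _ _ hg o ho h1 h2))

theorem cast_ent_inj {n : ℕ} (_h0 : 0 < n) {a b : ℕ} (e : ((a % n : ℕ) : ZMod n) = ((b % n : ℕ) : ZMod n)) :
    a % n = b % n := by
  rw [ZMod.natCast_eq_natCast_iff'] at e
  rwa [Nat.mod_mod, Nat.mod_mod] at e

/-- soundness of the certificate -/
theorem attains_of_check {n h m : ℕ} (hn : n = 2 * h) (h0 : 0 < n) (t : List (List ℕ))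
    (H : List (ℕ × ℕ)) (F : List (List ℕ)) (hc : check n h m t H F = true) : Attains n m := by
  classical
  have : NeZero n := ⟨by omega⟩
  unfold check at hc
  simp only [Bool.and_eq_true, List.all_eq_true, decide_eq_true_eq, List.mem_range] at hc
  obtain ⟨⟨⟨⟨⟨⟨c1, c2⟩, c3⟩, c4⟩, c5⟩, c6⟩, c7⟩ := hc
  have val_inj : ∀ {x y : ZMod n}, x.val = y.val → x = y := fun e => ZMod.val_injective n e
  refine ⟨fun i j => (ent n t i.val j.val : ZMod n), ⟨?_, ?_⟩, ⟨H.toFinset.image
    (fun p => ((p.1 : ZMod n), (p.2 : ZMod n))), ?_, ?_⟩,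
    Fin m, inferInstance, fun k i => (ent n F k.val i.val : ZMod n), by simp, ?_, ?_⟩
  · intro i j j' e
    exact val_inj (inj_of_nodup (c1 i.val (ZMod.val_lt i)) (ZMod.val_lt j) (ZMod.val_lt j')
      (cast_ent_inj h0 e))
  · intro j i i' e
    exact val_inj (inj_of_nodup (c2 j.val (ZMod.val_lt j)) (ZMod.val_lt i) (ZMod.val_lt i')
      (cast_ent_inj h0 e))
  · exact le_trans Finset.card_image_le (le_trans (List.toFinset_card_le H) c6)
  · intro f hf
    by_contra hno
    push Not at hno
    -- the column function on naturals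
    set g : ℕ → ℕ := fun i => (f (i : ZMod n)).val with hg
    have hgv : ∀ i : ZMod n, g i.val = (f i).val := by intro i; simp [hg]
    have hglt : ∀ i < n, g i < n := fun i _ => ZMod.val_lt _
    have hgH : ∀ i < n, (i, g i) ∉ H := by
      intro i hi hmem
      refine hno (i : ZMod n) ?_
      rw [Finset.mem_image]
      exact ⟨(i, g i), by simpa using hmem, by simp [hg]⟩
    have key := go_sound n h t H g hglt hgH (List.range n) [] [] 0
      (fun i hi => List.mem_range.1 hi) (by simp) (by simp) ?_ ?_ (go_filter _ _ _ _ _ _ c7)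
    · have hd := delta_sum hn hf
      -- compare the two sums
      have e1 : (∑ i : ZMod n, ((ent n t i.val (f i).val : ZMod n) - i - f i))
          = (((List.range n).map (fun i => dlt n t i (g i))).sum : ℕ) := by
        have e2 : ((List.range n).map (fun i => dlt n t i (g i))).sum
            = ∑ i ∈ Finset.range n, dlt n t i (g i) := by
          rw [Finset.sum_range, ← List.sum_ofFn]
          congr 1
          apply List.ext_getElem
          · simp
          · intro k hk1 hk2; simp
        rw [e2, Nat.cast_sum]
        refine Finset.sum_bij' (fun (x : ZMod n) _ => x.val) (fun (k : ℕ) _ => (k : ZMod n)) ?_ ?_ ?_ ?_ ?_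
        · intro x _; exact Finset.mem_range.2 (ZMod.val_lt x)
        · intro k _; exact Finset.mem_univ _
        · intro x _; simp
        · intro k hk
          exact ZMod.val_cast_of_lt (Finset.mem_range.1 hk)
        · intro x _
          rw [hgv]
          unfold dlt
          rw [ZMod.natCast_mod]
          have hx := ZMod.val_lt x
          have hfx := ZMod.val_lt (f x)
          have e3 : 2 * n - x.val - (f x).val + (x.val + (f x).val) = 2 * n := by omega
          have e4 : (((2 * n - x.val - (f x).val : ℕ) : ZMod n)) + (x + f x) = 0 := by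
            have := congrArg (fun z : ℕ => (z : ZMod n)) e3
            simp only [Nat.cast_add, Nat.cast_mul, ZMod.natCast_self, mul_zero,
              ZMod.natCast_zmod_val] at this
            exact this
          rw [Nat.cast_add]
          linear_combination -e4
      rw [e1] at hd
      rw [Nat.zero_add] at key
      apply key
      rw [ZMod.natCast_eq_natCast_iff'] at hd
      rw [hd, Nat.mod_eq_of_lt (by omega)]
    · rw [List.nodup_map_iff_inj_on List.nodup_range]
      intro i hi j hj e
      rw [List.mem_range] at hi hj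
      have h1 : (f (i : ZMod n)) = f (j : ZMod n) := val_inj e
      have h2 := hf.1 h1
      rw [ZMod.natCast_eq_natCast_iff', Nat.mod_eq_of_lt hi, Nat.mod_eq_of_lt hj] at h2
      exact h2
    · rw [List.nodup_map_iff_inj_on List.nodup_range]
      intro i hi j hj e
      rw [List.mem_range] at hi hj
      have h1 : (ent n t (i : ZMod n).val (f (i : ZMod n)).val : ZMod n)
          = (ent n t (j : ZMod n).val (f (j : ZMod n)).val : ZMod n) := by
        rw [ZMod.val_cast_of_lt hi, ZMod.val_cast_of_lt hj]
        exact congrArg _ e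
      have h2 := hf.2 h1
      rw [ZMod.natCast_eq_natCast_iff', Nat.mod_eq_of_lt hi, Nat.mod_eq_of_lt hj] at h2
      exact h2
  · intro k
    refine ⟨?_, ?_⟩
    · intro i i' e
      exact val_inj (inj_of_nodup (c3 k.val k.isLt) (ZMod.val_lt i) (ZMod.val_lt i')
        (cast_ent_inj h0 e))
    · intro i i' e
      have hv : ∀ x : ZMod n, ((ent n F k.val x.val : ℕ) : ZMod n).val = ent n F k.val x.val := by
        intro x
        exact ZMod.val_cast_of_lt (Nat.mod_lt _ h0)
      simp only [hv] at e
      exact val_inj (inj_of_nodup (c4 k.val k.isLt) (ZMod.val_lt i) (ZMod.val_lt i')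
        (cast_ent_inj h0 e))
  · intro k l hkl i e
    exact hkl (Fin.ext (inj_of_nodup (c5 i.val (ZMod.val_lt i)) k.isLt l.isLt
      (cast_ent_inj h0 e)))

end Pool.Agent.Hhelper6.LT
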