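import Mathlib
import Pool.Agent.Hhelper6.LT.Check

set_option autoImplicit false

/-!
Order 10: the values m = 1, 2, 3, 5, 6, 7 (certificates found by a SAT solver).
-/

namespace Pool.Agent.Hhelper6.LT

open Pool.Agent.Hhelper79.LT

/-- the value 1 in order 10 -/
theorem attains_10_1 : Attains 10 1 :=
  attains_of_check (n := 10) (h := 5) (by norm_num) (by norm_num)
    [[0, 1, 6, 3, 4, 5, 9, 7, 8, 2], [1, 2, 3, 4, 5, 6, 7, 8, 9, 0], [2, 3, 4, 5, 6, 7, 8, 9, 0,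
      1], [3, 4, 5, 6, 7, 8, 0, 1, 2, 9], [4, 5, 2, 7, 8, 9, 6, 0, 1, 3], [5, 6, 7, 8, 9, 0, 1,
      2, 3, 4], [6, 7, 8, 9, 0, 1, 2, 3, 4, 5], [7, 8, 9, 0, 1, 2, 3, 4, 5, 6], [8, 9, 0, 1, 2,
      3, 4, 5, 6, 7], [9, 0, 1, 2, 3, 4, 5, 6, 7, 8]]
    [(0, 2)]
    [[2, 9, 7, 8, 4, 0, 1, 6, 3, 5]]
    (by decide +kernel)

/-- the value 2 in order 10 -/
theorem attains_10_2 : Attains 10 2 :=
  attains_of_check (n := 10) (h := 5) (by norm_num) (by norm_num)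
    [[3, 1, 2, 4, 5, 8, 6, 7, 9, 0], [1, 2, 5, 3, 4, 6, 7, 0, 8, 9], [2, 3, 4, 5, 6, 7, 8, 9, 0,
      1], [0, 4, 3, 6, 7, 5, 9, 8, 1, 2], [4, 5, 6, 7, 8, 9, 0, 1, 2, 3], [5, 6, 7, 8, 9, 0, 1,
      2, 3, 4], [6, 7, 8, 9, 0, 1, 2, 3, 4, 5], [7, 8, 9, 0, 1, 2, 3, 4, 5, 6], [8, 9, 0, 1, 2,
      3, 4, 5, 6, 7], [9, 0, 1, 2, 3, 4, 5, 6, 7, 8]]
    [(0, 0), (0, 5)]
    [[0, 2, 5, 3, 8, 6, 4, 7, 1, 9], [5, 7, 9, 1, 2, 0, 3, 6, 4, 8]]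
    (by decide +kernel)

/-- the value 3 in order 10 -/
theorem attains_10_3 : Attains 10 3 :=
  attains_of_check (n := 10) (h := 5) (by norm_num) (by norm_num)
    [[3, 1, 2, 6, 4, 5, 7, 8, 9, 0], [0, 2, 3, 4, 5, 1, 6, 7, 8, 9], [2, 3, 4, 5, 6, 7, 8, 9, 0,
      1], [6, 4, 5, 3, 7, 8, 9, 0, 1, 2], [4, 5, 6, 7, 8, 9, 0, 1, 2, 3], [5, 6, 7, 8, 9, 0, 1,
      2, 3, 4], [1, 7, 8, 9, 0, 6, 2, 3, 4, 5], [7, 8, 9, 0, 1, 2, 3, 4, 5, 6], [8, 9, 0, 1, 2,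
      3, 4, 5, 6, 7], [9, 0, 1, 2, 3, 4, 5, 6, 7, 8]]
    [(1, 5), (6, 0), (6, 5)]
    [[4, 5, 8, 9, 3, 0, 2, 6, 1, 7], [2, 4, 1, 7, 5, 3, 0, 9, 6, 8], [1, 3, 0, 4, 6, 8, 5, 2, 7,
      9]]
    (by decide +kernel)

/-- the value 5 in order 10 -/
theorem attains_10_5 : Attains 10 5 :=
  attains_of_check (n := 10) (h := 5) (by norm_num) (by norm_num)
    [[0, 1, 6, 3, 4, 5, 9, 7, 8, 2], [1, 2, 3, 4, 0, 6, 7, 8, 9, 5], [2, 3, 4, 5, 6, 7, 8, 9, 0,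
      1], [3, 4, 5, 6, 7, 8, 0, 1, 2, 9], [4, 5, 2, 7, 8, 9, 6, 0, 1, 3], [5, 6, 7, 8, 9, 0, 1,
      2, 3, 4], [6, 7, 8, 9, 5, 1, 2, 3, 4, 0], [7, 8, 9, 0, 1, 2, 3, 4, 5, 6], [8, 9, 0, 1, 2,
      3, 4, 5, 6, 7], [9, 0, 1, 2, 3, 4, 5, 6, 7, 8]]
    [(0, 2), (1, 4), (1, 9), (6, 4), (6, 9)]
    [[2, 6, 9, 8, 4, 0, 7, 3, 1, 5], [8, 4, 5, 1, 9, 7, 0, 2, 3, 6], [1, 9, 8, 0, 3, 4, 2, 5, 6,
      7], [6, 3, 1, 7, 2, 5, 4, 0, 8, 9], [4, 2, 0, 3, 5, 6, 9, 1, 7, 8]]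
    (by decide +kernel)

/-- the value 6 in order 10 -/
theorem attains_10_6 : Attains 10 6 :=
  attains_of_check (n := 10) (h := 5) (by norm_num) (by norm_num)
    [[3, 1, 2, 4, 5, 8, 6, 7, 9, 0], [1, 2, 5, 3, 4, 6, 7, 0, 8, 9], [2, 3, 4, 5, 1, 7, 8, 9, 0,
      6], [0, 4, 3, 6, 7, 5, 9, 8, 1, 2], [4, 5, 6, 7, 8, 9, 0, 1, 2, 3], [5, 6, 7, 8, 9, 0, 1,
      2, 3, 4], [6, 7, 8, 9, 0, 1, 2, 3, 4, 5], [7, 8, 9, 0, 6, 2, 3, 4, 5, 1], [8, 9, 0, 1, 2,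
      3, 4, 5, 6, 7], [9, 0, 1, 2, 3, 4, 5, 6, 7, 8]]
    [(0, 0), (0, 5), (2, 4), (2, 9), (7, 4), (7, 9)]
    [[0, 2, 5, 9, 4, 6, 3, 7, 8, 1], [5, 7, 2, 8, 1, 4, 0, 6, 9, 3], [7, 1, 4, 3, 9, 5, 2, 8, 6,
      0], [3, 8, 9, 4, 6, 0, 7, 5, 1, 2], [9, 3, 7, 1, 8, 2, 5, 4, 0, 6], [2, 5, 1, 6, 0, 3, 4,
      9, 7, 8]]
    (by decide +kernel)

/-- the value 7 in order 10 -/
theorem attains_10_7 : Attains 10 7 :=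
  attains_of_check (n := 10) (h := 5) (by norm_num) (by norm_num)
    [[3, 1, 2, 6, 4, 5, 7, 8, 9, 0], [0, 2, 3, 4, 5, 1, 6, 7, 8, 9], [2, 3, 4, 5, 6, 7, 8, 9, 0,
      1], [6, 4, 5, 3, 7, 8, 9, 0, 1, 2], [4, 0, 6, 7, 8, 9, 5, 1, 2, 3], [5, 6, 7, 8, 9, 0, 1,
      2, 3, 4], [1, 7, 8, 9, 0, 6, 2, 3, 4, 5], [7, 8, 9, 0, 1, 2, 3, 4, 5, 6], [8, 9, 0, 1, 2,
      3, 4, 5, 6, 7], [9, 5, 1, 2, 3, 4, 0, 6, 7, 8]]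
    [(1, 5), (6, 0), (6, 5), (4, 1), (4, 6), (9, 1), (9, 6)]
    [[4, 5, 3, 7, 2, 8, 6, 1, 9, 0], [6, 8, 4, 2, 9, 7, 0, 3, 1, 5], [7, 9, 0, 1, 3, 6, 5, 8, 2,
      4], [2, 4, 5, 8, 1, 9, 3, 6, 0, 7], [8, 0, 9, 4, 6, 1, 2, 7, 5, 3], [9, 6, 2, 5, 8, 4, 7,
      0, 3, 1], [5, 2, 7, 9, 0, 3, 1, 4, 8, 6]]
    (by decide +kernel)

/-- the certified values in order 10 -/
theorem attains_ten {m : ℕ} (hm : m ∈ [1, 2, 3, 5, 6, 7]) : Attains 10 m := by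
  simp only [List.mem_cons, List.not_mem_nil, or_false] at hm
  rcases hm with rfl | rfl | rfl | rfl | rfl | rfl
  · exact attains_10_1
  · exact attains_10_2
  · exact attains_10_3
  · exact attains_10_5
  · exact attains_10_6
  · exact attains_10_7

end Pool.Agent.Hhelper6.LT
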