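import Mathlib
import Pool.Agent.Hhelper6.LT.Check

set_option autoImplicit false

/-!
Order 12: the values m = 1, 2, 3, 5, 6, 7, 9, 10 (certificates found by a SAT solver).
-/

namespace Pool.Agent.Hhelper6.LT

open Pool.Agent.Hhelper79.LT

/-- the value 1 in order 12 -/
theorem attains_twelve_1 : Attains 12 1 :=
  attains_of_check (n := 12) (h := 6) (by norm_num) (by norm_num)
    [[2, 1, 3, 4, 6, 5, 8, 7, 10, 9, 0, 11], [0, 3, 5, 6, 4, 7, 9, 10, 8, 11, 1, 2], [1, 2,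
      4, 3, 5, 6, 7, 8, 9, 10, 11, 0], [3, 4, 2, 5, 7, 8, 6, 9, 11, 0, 10, 1], [4, 5, 6, 7,
      8, 9, 10, 11, 0, 1, 2, 3], [5, 6, 7, 8, 9, 10, 11, 0, 1, 2, 3, 4], [6, 7, 8, 9, 10,
      11, 0, 1, 2, 3, 4, 5], [7, 8, 9, 10, 11, 0, 1, 2, 3, 4, 5, 6], [8, 9, 10, 11, 0, 1, 2,
      3, 4, 5, 6, 7], [9, 10, 11, 0, 1, 2, 3, 4, 5, 6, 7, 8], [10, 11, 0, 1, 2, 3, 4, 5, 6,
      7, 8, 9], [11, 0, 1, 2, 3, 4, 5, 6, 7, 8, 9, 10]]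
    [(2, 3)]
    [[7, 8, 3, 6, 10, 4, 11, 9, 5, 1, 2, 0]]
    (by decide +kernel)

/-- the value 2 in order 12 -/
theorem attains_twelve_2 : Attains 12 2 :=
  attains_of_check (n := 12) (h := 6) (by norm_num) (by norm_num)
    [[0, 1, 4, 7, 6, 5, 10, 11, 8, 9, 2, 3], [1, 2, 3, 4, 5, 6, 7, 8, 9, 10, 11, 0], [2, 3,
      6, 5, 4, 7, 8, 9, 10, 11, 0, 1], [3, 4, 5, 6, 7, 8, 9, 10, 11, 0, 1, 2], [4, 5, 2, 3,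
      8, 9, 6, 7, 0, 1, 10, 11], [5, 6, 7, 8, 9, 10, 11, 0, 1, 2, 3, 4], [6, 7, 8, 9, 10,
      11, 0, 1, 2, 3, 4, 5], [7, 8, 9, 10, 11, 0, 1, 2, 3, 4, 5, 6], [8, 9, 10, 11, 0, 1, 2,
      3, 4, 5, 6, 7], [9, 10, 11, 0, 1, 2, 3, 4, 5, 6, 7, 8], [10, 11, 0, 1, 2, 3, 4, 5, 6,
      7, 8, 9], [11, 0, 1, 2, 3, 4, 5, 6, 7, 8, 9, 10]]
    [(2, 4), (2, 2)]
    [[1, 2, 4, 7, 6, 0, 8, 5, 3, 11, 9, 10], [3, 0, 2, 1, 5, 9, 6, 4, 7, 8, 10, 11]]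
    (by decide +kernel)

/-- the value 3 in order 12 -/
theorem attains_twelve_3 : Attains 12 3 :=
  attains_of_check (n := 12) (h := 6) (by norm_num) (by norm_num)
    [[0, 1, 2, 3, 4, 5, 6, 7, 8, 9, 10, 11], [1, 2, 3, 4, 5, 6, 7, 8, 9, 10, 11, 0], [2, 3,
      4, 5, 6, 7, 8, 9, 10, 11, 0, 1], [3, 4, 5, 0, 7, 8, 9, 10, 11, 6, 1, 2], [4, 5, 6, 7,
      8, 9, 10, 11, 0, 1, 2, 3], [5, 6, 7, 8, 9, 10, 11, 0, 1, 2, 3, 4], [6, 7, 8, 9, 10,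
      11, 3, 1, 2, 0, 4, 5], [7, 8, 9, 10, 11, 0, 1, 2, 3, 4, 5, 6], [8, 9, 10, 11, 0, 1, 2,
      3, 4, 5, 6, 7], [9, 10, 11, 6, 1, 2, 0, 4, 5, 3, 7, 8], [10, 11, 0, 1, 2, 3, 4, 5, 6,
      7, 8, 9], [11, 0, 1, 2, 3, 4, 5, 6, 7, 8, 9, 10]]
    [(3, 3), (3, 9), (9, 3)]
    [[5, 2, 0, 3, 7, 1, 4, 6, 8, 10, 11, 9], [4, 0, 1, 9, 8, 2, 5, 3, 6, 11, 7, 10], [0, 1,
      2, 4, 5, 6, 7, 8, 9, 3, 10, 11]]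
    (by decide +kernel)

/-- the value 5 in order 12 -/
theorem attains_twelve_5 : Attains 12 5 :=
  attains_of_check (n := 12) (h := 6) (by norm_num) (by norm_num)
    [[2, 1, 3, 4, 6, 5, 8, 7, 10, 9, 0, 11], [0, 3, 5, 6, 4, 7, 9, 10, 8, 11, 1, 2], [1, 2,
      4, 3, 5, 6, 7, 8, 9, 10, 11, 0], [3, 4, 2, 5, 7, 8, 6, 9, 11, 0, 10, 1], [10, 5, 6, 7,
      8, 9, 4, 11, 0, 1, 2, 3], [5, 6, 7, 8, 9, 10, 11, 0, 1, 2, 3, 4], [6, 7, 8, 9, 10, 11,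
      0, 1, 2, 3, 4, 5], [7, 8, 9, 10, 11, 0, 1, 2, 3, 4, 5, 6], [8, 9, 10, 11, 0, 1, 2, 3,
      4, 5, 6, 7], [9, 10, 11, 0, 1, 2, 3, 4, 5, 6, 7, 8], [4, 11, 0, 1, 2, 3, 10, 5, 6, 7,
      8, 9], [11, 0, 1, 2, 3, 4, 5, 6, 7, 8, 9, 10]]
    [(2, 3), (4, 0), (4, 6), (10, 0), (10, 6)]
    [[5, 4, 3, 10, 8, 1, 7, 0, 6, 2, 11, 9], [11, 1, 6, 5, 0, 4, 8, 9, 10, 3, 7, 2], [2, 5,
      10, 7, 6, 9, 4, 11, 0, 8, 3, 1], [9, 2, 5, 11, 4, 10, 6, 7, 3, 1, 0, 8], [4, 0, 2, 3,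
      7, 8, 9, 1, 11, 5, 6, 10]]
    (by decide +kernel)

/-- the value 6 in order 12 -/
theorem attains_twelve_6 : Attains 12 6 :=
  attains_of_check (n := 12) (h := 6) (by norm_num) (by norm_num)
    [[0, 1, 4, 7, 6, 5, 10, 11, 8, 9, 2, 3], [7, 2, 3, 4, 5, 6, 1, 8, 9, 10, 11, 0], [2, 3,
      6, 5, 4, 7, 8, 9, 10, 11, 0, 1], [3, 4, 5, 6, 7, 8, 9, 10, 11, 0, 1, 2], [4, 5, 2, 3,
      8, 9, 6, 7, 0, 1, 10, 11], [5, 6, 7, 8, 9, 10, 11, 0, 1, 2, 3, 4], [6, 7, 8, 9, 10,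
      11, 0, 1, 2, 3, 4, 5], [1, 8, 9, 10, 11, 0, 7, 2, 3, 4, 5, 6], [8, 9, 10, 11, 0, 1, 2,
      3, 4, 5, 6, 7], [9, 10, 11, 0, 1, 2, 3, 4, 5, 6, 7, 8], [10, 11, 0, 1, 2, 3, 4, 5, 6,
      7, 8, 9], [11, 0, 1, 2, 3, 4, 5, 6, 7, 8, 9, 10]]
    [(2, 4), (2, 2), (1, 0), (1, 6), (7, 0), (7, 6)]
    [[9, 1, 4, 8, 3, 5, 7, 11, 0, 10, 2, 6], [10, 11, 2, 0, 4, 6, 3, 9, 5, 1, 7, 8], [8, 0,
      1, 10, 5, 9, 11, 4, 2, 3, 6, 7], [0, 6, 5, 3, 1, 10, 4, 7, 8, 2, 11, 9], [7, 2, 3, 6,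
      10, 1, 8, 0, 4, 11, 9, 5], [1, 3, 0, 2, 8, 4, 5, 6, 7, 9, 10, 11]]
    (by decide +kernel)

/-- the value 7 in order 12 -/
theorem attains_twelve_7 : Attains 12 7 :=
  attains_of_check (n := 12) (h := 6) (by norm_num) (by norm_num)
    [[0, 1, 2, 3, 4, 5, 6, 7, 8, 9, 10, 11], [7, 2, 3, 4, 5, 6, 1, 8, 9, 10, 11, 0], [2, 3,
      4, 5, 6, 7, 8, 9, 10, 11, 0, 1], [3, 4, 5, 0, 7, 8, 9, 10, 11, 6, 1, 2], [4, 5, 6, 7,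
      8, 9, 10, 11, 0, 1, 2, 3], [5, 6, 7, 8, 9, 10, 11, 0, 1, 2, 3, 4], [6, 7, 8, 9, 10,
      11, 3, 1, 2, 0, 4, 5], [1, 8, 9, 10, 11, 0, 7, 2, 3, 4, 5, 6], [8, 9, 10, 11, 0, 1, 2,
      3, 4, 5, 6, 7], [9, 10, 11, 6, 1, 2, 0, 4, 5, 3, 7, 8], [10, 11, 0, 1, 2, 3, 4, 5, 6,
      7, 8, 9], [11, 0, 1, 2, 3, 4, 5, 6, 7, 8, 9, 10]]
    [(3, 3), (3, 9), (9, 3), (1, 0), (1, 6), (7, 0), (7, 6)]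
    [[8, 2, 5, 3, 9, 11, 0, 4, 6, 1, 7, 10], [0, 4, 7, 9, 6, 2, 10, 8, 5, 11, 1, 3], [5, 8,
      10, 1, 11, 6, 4, 7, 0, 3, 9, 2], [6, 0, 2, 10, 7, 9, 3, 1, 4, 8, 5, 11], [10, 6, 9, 4,
      1, 3, 8, 11, 7, 0, 2, 5], [2, 9, 3, 6, 4, 10, 5, 0, 11, 7, 8, 1], [4, 1, 8, 0, 5, 7,
      11, 6, 10, 2, 3, 9]]
    (by decide +kernel)

/-- the value 9 in order 12 -/
theorem attains_twelve_9 : Attains 12 9 :=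
  attains_of_check (n := 12) (h := 6) (by norm_num) (by norm_num)
    [[2, 1, 3, 4, 6, 5, 8, 7, 10, 9, 0, 11], [0, 3, 5, 6, 4, 7, 9, 10, 8, 11, 1, 2], [1, 2,
      4, 3, 5, 6, 7, 8, 9, 10, 11, 0], [3, 4, 2, 5, 7, 8, 6, 9, 11, 0, 10, 1], [10, 11, 6,
      7, 8, 9, 4, 5, 0, 1, 2, 3], [5, 6, 7, 8, 9, 10, 11, 0, 1, 2, 3, 4], [6, 7, 8, 9, 10,
      11, 0, 1, 2, 3, 4, 5], [7, 8, 9, 10, 11, 0, 1, 2, 3, 4, 5, 6], [8, 9, 10, 11, 0, 1, 2,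
      3, 4, 5, 6, 7], [9, 10, 11, 0, 1, 2, 3, 4, 5, 6, 7, 8], [4, 5, 0, 1, 2, 3, 10, 11, 6,
      7, 8, 9], [11, 0, 1, 2, 3, 4, 5, 6, 7, 8, 9, 10]]
    [(2, 3), (4, 0), (4, 6), (10, 0), (10, 6), (4, 1), (4, 7), (10, 1), (10, 7)]
    [[1, 8, 3, 6, 10, 4, 5, 0, 9, 7, 2, 11], [7, 1, 4, 9, 0, 6, 10, 2, 5, 11, 8, 3], [2, 9,
      8, 3, 6, 5, 7, 11, 0, 10, 4, 1], [9, 3, 7, 11, 8, 10, 1, 4, 2, 5, 0, 6], [3, 5, 1, 7,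
      11, 8, 2, 10, 4, 9, 6, 0], [8, 4, 11, 5, 1, 0, 3, 7, 10, 6, 9, 2], [4, 0, 9, 1, 7, 3,
      8, 6, 11, 2, 5, 10], [10, 7, 6, 2, 5, 11, 0, 8, 3, 4, 1, 9], [0, 6, 5, 10, 9, 2, 11,
      1, 8, 3, 7, 4]]
    (by decide +kernel)

/-- the value 10 in order 12 -/
theorem attains_twelve_10 : Attains 12 10 :=
  attains_of_check (n := 12) (h := 6) (by norm_num) (by norm_num)
    [[0, 1, 4, 7, 6, 5, 10, 11, 8, 9, 2, 3], [7, 8, 3, 4, 5, 6, 1, 2, 9, 10, 11, 0], [2, 3,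
      6, 5, 4, 7, 8, 9, 10, 11, 0, 1], [3, 4, 5, 6, 7, 8, 9, 10, 11, 0, 1, 2], [4, 5, 2, 3,
      8, 9, 6, 7, 0, 1, 10, 11], [5, 6, 7, 8, 9, 10, 11, 0, 1, 2, 3, 4], [6, 7, 8, 9, 10,
      11, 0, 1, 2, 3, 4, 5], [1, 2, 9, 10, 11, 0, 7, 8, 3, 4, 5, 6], [8, 9, 10, 11, 0, 1, 2,
      3, 4, 5, 6, 7], [9, 10, 11, 0, 1, 2, 3, 4, 5, 6, 7, 8], [10, 11, 0, 1, 2, 3, 4, 5, 6,
      7, 8, 9], [11, 0, 1, 2, 3, 4, 5, 6, 7, 8, 9, 10]]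
    [(2, 4), (2, 2), (1, 0), (1, 6), (7, 0), (7, 6), (1, 1), (1, 7), (7, 1), (7, 7)]
    [[5, 2, 4, 9, 7, 6, 8, 11, 0, 1, 3, 10], [11, 10, 2, 4, 8, 0, 7, 3, 1, 5, 6, 9], [7, 0,
      10, 1, 6, 8, 4, 2, 9, 11, 5, 3], [9, 6, 0, 3, 4, 7, 11, 8, 2, 10, 1, 5], [8, 5, 9, 6,
      1, 2, 10, 0, 7, 3, 4, 11], [10, 4, 7, 8, 3, 11, 2, 6, 5, 9, 0, 1], [6, 1, 5, 0, 11, 9,
      3, 10, 4, 7, 8, 2], [3, 7, 11, 5, 10, 1, 9, 4, 8, 0, 2, 6], [0, 3, 8, 2, 9, 4, 5, 1,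
      11, 6, 10, 7], [1, 8, 3, 11, 0, 5, 6, 7, 10, 2, 9, 4]]
    (by decide +kernel)

/-- all values of the frozen range in order 12 except the multiples of four -/
theorem attains_twelve {m : ℕ} (hm : m ∈ [1, 2, 3, 5, 6, 7, 9, 10]) : Attains 12 m := by
  simp only [List.mem_cons, List.not_mem_nil, or_false] at hm
  rcases hm with rfl | rfl | rfl | rfl | rfl | rfl | rfl | rfl
  · exact attains_twelve_1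
  · exact attains_twelve_2
  · exact attains_twelve_3
  · exact attains_twelve_5
  · exact attains_twelve_6
  · exact attains_twelve_7
  · exact attains_twelve_9
  · exact attains_twelve_10

end Pool.Agent.Hhelper6.LT
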