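import Mathlib
import Pool.Agent.Hhelper6.LT.Check

set_option autoImplicit false

/-!
Order 14: the values m = 1, 2, 3, 5, 6, 7, 9, 10, 11 (certificates found by a SAT solver).
-/

namespace Pool.Agent.Hhelper6.LT

open Pool.Agent.Hhelper79.LT

/-- the value 1 in order 14 -/
theorem attains_14_1 : Attains 14 1 :=
  attains_of_check (n := 14) (h := 7) (by norm_num) (by norm_num)
    [[0, 1, 2, 4, 5, 11, 6, 7, 8, 9, 10, 3, 12, 13], [1, 2, 3, 9, 4, 6, 7, 8, 0, 10, 11, 12, 13,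
      5], [2, 3, 4, 5, 6, 7, 8, 9, 10, 11, 12, 13, 0, 1], [3, 4, 5, 6, 7, 8, 9, 10, 11, 12, 13,
      0, 1, 2], [4, 5, 6, 7, 8, 9, 10, 11, 12, 13, 0, 1, 2, 3], [5, 6, 7, 8, 9, 10, 11, 12, 13,
      0, 1, 2, 3, 4], [6, 7, 8, 3, 10, 5, 12, 13, 9, 1, 2, 11, 4, 0], [7, 8, 9, 10, 11, 12, 13,
      0, 1, 2, 3, 4, 5, 6], [8, 9, 10, 11, 12, 13, 0, 1, 2, 3, 4, 5, 6, 7], [9, 10, 11, 12, 13,
      0, 1, 2, 3, 4, 5, 6, 7, 8], [10, 11, 12, 13, 0, 1, 2, 3, 4, 5, 6, 7, 8, 9], [11, 12, 13,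
      0, 1, 2, 3, 4, 5, 6, 7, 8, 9, 10], [12, 13, 0, 1, 2, 3, 4, 5, 6, 7, 8, 9, 10, 11], [13, 0,
      1, 2, 3, 4, 5, 6, 7, 8, 9, 10, 11, 12]]
    [(1, 4)]
    [[1, 4, 0, 6, 9, 2, 5, 7, 3, 8, 10, 11, 12, 13]]
    (by decide +kernel)

/-- the value 2 in order 14 -/
theorem attains_14_2 : Attains 14 2 :=
  attains_of_check (n := 14) (h := 7) (by norm_num) (by norm_num)
    [[4, 1, 2, 3, 5, 6, 7, 11, 8, 9, 10, 12, 13, 0], [1, 2, 3, 7, 4, 5, 6, 8, 9, 10, 0, 11, 12,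
      13], [2, 3, 4, 5, 6, 7, 8, 9, 10, 11, 12, 13, 0, 1], [3, 4, 5, 6, 7, 8, 9, 10, 11, 12, 13,
      0, 1, 2], [0, 5, 6, 4, 8, 9, 10, 7, 12, 13, 11, 1, 2, 3], [5, 6, 7, 8, 9, 10, 11, 12, 13,
      0, 1, 2, 3, 4], [6, 7, 8, 9, 10, 11, 12, 13, 0, 1, 2, 3, 4, 5], [7, 8, 9, 10, 11, 12, 13,
      0, 1, 2, 3, 4, 5, 6], [8, 9, 10, 11, 12, 13, 0, 1, 2, 3, 4, 5, 6, 7], [9, 10, 11, 12, 13,
      0, 1, 2, 3, 4, 5, 6, 7, 8], [10, 11, 12, 13, 0, 1, 2, 3, 4, 5, 6, 7, 8, 9], [11, 12, 13,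
      0, 1, 2, 3, 4, 5, 6, 7, 8, 9, 10], [12, 13, 0, 1, 2, 3, 4, 5, 6, 7, 8, 9, 10, 11], [13, 0,
      1, 2, 3, 4, 5, 6, 7, 8, 9, 10, 11, 12]]
    [(0, 0), (0, 7)]
    [[0, 10, 1, 3, 4, 2, 6, 8, 5, 7, 9, 13, 11, 12], [7, 3, 2, 0, 1, 4, 9, 6, 8, 5, 10, 11, 12,
      13]]
    (by decide +kernel)

/-- the value 3 in order 14 -/
theorem attains_14_3 : Attains 14 3 :=
  attains_of_check (n := 14) (h := 7) (by norm_num) (by norm_num)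
    [[4, 1, 2, 3, 8, 5, 6, 7, 9, 10, 11, 12, 13, 0], [0, 2, 3, 4, 5, 6, 7, 1, 8, 9, 10, 11, 12,
      13], [2, 3, 4, 5, 6, 7, 8, 9, 10, 11, 12, 13, 0, 1], [3, 4, 5, 6, 7, 8, 9, 10, 11, 12, 13,
      0, 1, 2], [8, 5, 6, 7, 4, 9, 10, 11, 12, 13, 0, 1, 2, 3], [5, 6, 7, 8, 9, 10, 11, 12, 13,
      0, 1, 2, 3, 4], [6, 7, 8, 9, 10, 11, 12, 13, 0, 1, 2, 3, 4, 5], [7, 8, 9, 10, 11, 12, 13,
      0, 1, 2, 3, 4, 5, 6], [1, 9, 10, 11, 12, 13, 0, 8, 2, 3, 4, 5, 6, 7], [9, 10, 11, 12, 13,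
      0, 1, 2, 3, 4, 5, 6, 7, 8], [10, 11, 12, 13, 0, 1, 2, 3, 4, 5, 6, 7, 8, 9], [11, 12, 13,
      0, 1, 2, 3, 4, 5, 6, 7, 8, 9, 10], [12, 13, 0, 1, 2, 3, 4, 5, 6, 7, 8, 9, 10, 11], [13, 0,
      1, 2, 3, 4, 5, 6, 7, 8, 9, 10, 11, 12]]
    [(1, 7), (8, 0), (8, 7)]
    [[5, 7, 4, 0, 9, 2, 10, 1, 6, 3, 8, 12, 13, 11], [2, 4, 1, 5, 3, 8, 6, 7, 0, 9, 10, 13, 11,
      12], [1, 2, 0, 3, 5, 6, 8, 11, 7, 4, 9, 10, 12, 13]]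
    (by decide +kernel)

/-- the value 5 in order 14 -/
theorem attains_14_5 : Attains 14 5 :=
  attains_of_check (n := 14) (h := 7) (by norm_num) (by norm_num)
    [[0, 1, 2, 4, 5, 11, 6, 7, 8, 9, 10, 3, 12, 13], [1, 2, 3, 9, 4, 6, 7, 8, 0, 10, 11, 12, 13,
      5], [2, 3, 4, 5, 6, 7, 8, 9, 10, 11, 12, 13, 0, 1], [3, 4, 5, 6, 7, 8, 9, 10, 11, 12, 13,
      0, 1, 2], [4, 12, 6, 7, 8, 9, 10, 11, 5, 13, 0, 1, 2, 3], [5, 6, 7, 8, 9, 10, 11, 12, 13,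
      0, 1, 2, 3, 4], [6, 7, 8, 3, 10, 5, 12, 13, 9, 1, 2, 11, 4, 0], [7, 8, 9, 10, 11, 12, 13,
      0, 1, 2, 3, 4, 5, 6], [8, 9, 10, 11, 12, 13, 0, 1, 2, 3, 4, 5, 6, 7], [9, 10, 11, 12, 13,
      0, 1, 2, 3, 4, 5, 6, 7, 8], [10, 11, 12, 13, 0, 1, 2, 3, 4, 5, 6, 7, 8, 9], [11, 5, 13, 0,
      1, 2, 3, 4, 12, 6, 7, 8, 9, 10], [12, 13, 0, 1, 2, 3, 4, 5, 6, 7, 8, 9, 10, 11], [13, 0,
      1, 2, 3, 4, 5, 6, 7, 8, 9, 10, 11, 12]]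
    [(1, 4), (4, 1), (4, 8), (11, 1), (11, 8)]
    [[2, 4, 12, 7, 13, 0, 11, 5, 1, 6, 3, 10, 8, 9], [11, 12, 2, 3, 1, 6, 5, 8, 0, 7, 4, 13, 9,
      10], [0, 1, 4, 5, 8, 2, 9, 6, 10, 3, 7, 12, 13, 11], [5, 0, 6, 10, 2, 4, 3, 7, 8, 9, 11,
      1, 12, 13], [1, 2, 3, 4, 0, 5, 7, 9, 6, 13, 10, 8, 11, 12]]
    (by decide +kernel)

/-- the value 6 in order 14 -/
theorem attains_14_6 : Attains 14 6 :=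
  attains_of_check (n := 14) (h := 7) (by norm_num) (by norm_num)
    [[4, 1, 2, 3, 5, 6, 7, 11, 8, 9, 10, 12, 13, 0], [1, 2, 3, 7, 4, 5, 6, 8, 9, 10, 0, 11, 12,
      13], [2, 3, 4, 5, 6, 7, 8, 9, 10, 11, 12, 13, 0, 1], [3, 4, 5, 6, 7, 8, 9, 10, 11, 12, 13,
      0, 1, 2], [0, 5, 6, 4, 8, 9, 10, 7, 12, 13, 11, 1, 2, 3], [5, 6, 7, 8, 9, 10, 11, 12, 13,
      0, 1, 2, 3, 4], [6, 7, 1, 9, 10, 11, 12, 13, 0, 8, 2, 3, 4, 5], [7, 8, 9, 10, 11, 12, 13,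
      0, 1, 2, 3, 4, 5, 6], [8, 9, 10, 11, 12, 13, 0, 1, 2, 3, 4, 5, 6, 7], [9, 10, 11, 12, 13,
      0, 1, 2, 3, 4, 5, 6, 7, 8], [10, 11, 12, 13, 0, 1, 2, 3, 4, 5, 6, 7, 8, 9], [11, 12, 13,
      0, 1, 2, 3, 4, 5, 6, 7, 8, 9, 10], [12, 13, 0, 1, 2, 3, 4, 5, 6, 7, 8, 9, 10, 11], [13, 0,
      8, 2, 3, 4, 5, 6, 7, 1, 9, 10, 11, 12]]
    [(0, 0), (0, 7), (6, 2), (6, 9), (13, 2), (13, 9)]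
    [[0, 10, 13, 8, 6, 1, 3, 9, 5, 12, 2, 11, 7, 4], [7, 3, 6, 0, 9, 4, 12, 13, 8, 10, 5, 1, 2,
      11], [13, 11, 7, 9, 1, 12, 2, 3, 0, 4, 10, 5, 6, 8], [6, 4, 0, 12, 5, 7, 9, 10, 11, 2, 3,
      13, 8, 1], [9, 1, 3, 10, 8, 6, 0, 11, 13, 5, 7, 4, 12, 2], [5, 13, 8, 4, 12, 0, 11, 2, 6,
      3, 1, 7, 10, 9]]
    (by decide +kernel)

/-- the value 7 in order 14 -/
theorem attains_14_7 : Attains 14 7 :=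
  attains_of_check (n := 14) (h := 7) (by norm_num) (by norm_num)
    [[4, 1, 2, 3, 8, 5, 6, 7, 9, 10, 11, 12, 13, 0], [0, 2, 3, 4, 5, 6, 7, 1, 8, 9, 10, 11, 12,
      13], [9, 3, 4, 5, 6, 7, 8, 2, 10, 11, 12, 13, 0, 1], [3, 4, 5, 6, 7, 8, 9, 10, 11, 12, 13,
      0, 1, 2], [8, 5, 6, 7, 4, 9, 10, 11, 12, 13, 0, 1, 2, 3], [5, 6, 7, 8, 9, 10, 11, 12, 13,
      0, 1, 2, 3, 4], [6, 7, 8, 9, 10, 11, 12, 13, 0, 1, 2, 3, 4, 5], [7, 8, 9, 10, 11, 12, 13,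
      0, 1, 2, 3, 4, 5, 6], [1, 9, 10, 11, 12, 13, 0, 8, 2, 3, 4, 5, 6, 7], [2, 10, 11, 12, 13,
      0, 1, 9, 3, 4, 5, 6, 7, 8], [10, 11, 12, 13, 0, 1, 2, 3, 4, 5, 6, 7, 8, 9], [11, 12, 13,
      0, 1, 2, 3, 4, 5, 6, 7, 8, 9, 10], [12, 13, 0, 1, 2, 3, 4, 5, 6, 7, 8, 9, 10, 11], [13, 0,
      1, 2, 3, 4, 5, 6, 7, 8, 9, 10, 11, 12]]
    [(1, 7), (8, 0), (8, 7), (2, 0), (2, 7), (9, 0), (9, 7)]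
    [[2, 7, 9, 10, 8, 4, 1, 11, 12, 13, 0, 3, 5, 6], [6, 3, 12, 9, 5, 11, 13, 4, 0, 1, 7, 2, 10,
      8], [9, 11, 13, 1, 3, 12, 6, 2, 7, 5, 10, 8, 4, 0], [5, 1, 0, 12, 7, 9, 2, 6, 10, 3, 11,
      13, 8, 4], [3, 6, 7, 2, 10, 8, 0, 1, 4, 9, 5, 12, 13, 11], [1, 2, 8, 3, 9, 7, 5, 12, 13,
      0, 4, 11, 6, 10], [10, 12, 11, 0, 1, 3, 4, 13, 6, 7, 8, 5, 9, 2]]
    (by decide +kernel)

/-- the value 9 in order 14 -/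
theorem attains_14_9 : Attains 14 9 :=
  attains_of_check (n := 14) (h := 7) (by norm_num) (by norm_num)
    [[0, 1, 2, 4, 5, 11, 6, 7, 8, 9, 10, 3, 12, 13], [1, 2, 3, 9, 4, 6, 7, 8, 0, 10, 11, 12, 13,
      5], [2, 3, 4, 5, 6, 7, 8, 9, 10, 11, 12, 13, 0, 1], [3, 4, 5, 6, 7, 8, 9, 10, 11, 12, 13,
      0, 1, 2], [4, 12, 6, 0, 8, 9, 10, 11, 5, 13, 7, 1, 2, 3], [5, 6, 7, 8, 9, 10, 11, 12, 13,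
      0, 1, 2, 3, 4], [6, 7, 8, 3, 10, 5, 12, 13, 9, 1, 2, 11, 4, 0], [7, 8, 9, 10, 11, 12, 13,
      0, 1, 2, 3, 4, 5, 6], [8, 9, 10, 11, 12, 13, 0, 1, 2, 3, 4, 5, 6, 7], [9, 10, 11, 12, 13,
      0, 1, 2, 3, 4, 5, 6, 7, 8], [10, 11, 12, 13, 0, 1, 2, 3, 4, 5, 6, 7, 8, 9], [11, 5, 13, 7,
      1, 2, 3, 4, 12, 6, 0, 8, 9, 10], [12, 13, 0, 1, 2, 3, 4, 5, 6, 7, 8, 9, 10, 11], [13, 0,
      1, 2, 3, 4, 5, 6, 7, 8, 9, 10, 11, 12]]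
    [(1, 4), (4, 1), (4, 8), (11, 1), (11, 8), (4, 3), (4, 10), (11, 3), (11, 10)]
    [[6, 4, 9, 0, 12, 8, 5, 2, 7, 3, 11, 13, 10, 1], [0, 2, 3, 4, 1, 5, 7, 11, 8, 6, 12, 9, 13,
      10], [5, 7, 4, 11, 8, 10, 3, 9, 13, 1, 2, 12, 6, 0], [2, 3, 5, 7, 11, 6, 13, 10, 12, 4, 8,
      1, 0, 9], [1, 5, 0, 10, 7, 13, 2, 3, 9, 12, 4, 8, 11, 6], [7, 10, 1, 13, 3, 4, 6, 12, 5,
      9, 0, 11, 8, 2], [3, 8, 13, 6, 10, 1, 11, 5, 0, 7, 9, 2, 12, 4], [8, 12, 10, 1, 5, 0, 9,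
      13, 6, 2, 7, 3, 4, 11], [9, 1, 2, 12, 6, 7, 0, 4, 11, 13, 3, 10, 5, 8]]
    (by decide +kernel)

/-- the value 10 in order 14 -/
theorem attains_14_10 : Attains 14 10 :=
  attains_of_check (n := 14) (h := 7) (by norm_num) (by norm_num)
    [[4, 1, 2, 3, 5, 6, 7, 11, 8, 9, 10, 12, 13, 0], [1, 2, 3, 7, 4, 5, 6, 8, 9, 10, 0, 11, 12,
      13], [2, 10, 4, 12, 6, 7, 8, 9, 3, 11, 5, 13, 0, 1], [3, 4, 5, 6, 7, 8, 9, 10, 11, 12, 13,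
      0, 1, 2], [0, 5, 6, 4, 8, 9, 10, 7, 12, 13, 11, 1, 2, 3], [5, 6, 7, 8, 9, 10, 11, 12, 13,
      0, 1, 2, 3, 4], [6, 7, 8, 9, 10, 11, 12, 13, 0, 1, 2, 3, 4, 5], [7, 8, 9, 10, 11, 12, 13,
      0, 1, 2, 3, 4, 5, 6], [8, 9, 10, 11, 12, 13, 0, 1, 2, 3, 4, 5, 6, 7], [9, 3, 11, 5, 13, 0,
      1, 2, 10, 4, 12, 6, 7, 8], [10, 11, 12, 13, 0, 1, 2, 3, 4, 5, 6, 7, 8, 9], [11, 12, 13, 0,
      1, 2, 3, 4, 5, 6, 7, 8, 9, 10], [12, 13, 0, 1, 2, 3, 4, 5, 6, 7, 8, 9, 10, 11], [13, 0, 1,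
      2, 3, 4, 5, 6, 7, 8, 9, 10, 11, 12]]
    [(0, 0), (0, 7), (2, 1), (2, 8), (9, 1), (9, 8), (2, 3), (2, 10), (9, 3), (9, 10)]
    [[0, 10, 5, 12, 8, 1, 4, 2, 9, 7, 3, 11, 13, 6], [7, 3, 12, 6, 9, 10, 13, 1, 2, 11, 8, 5, 0,
      4], [13, 12, 1, 10, 11, 2, 3, 4, 0, 9, 6, 8, 5, 7], [12, 11, 8, 2, 6, 3, 1, 7, 10, 0, 5,
      9, 4, 13], [11, 6, 7, 4, 12, 13, 8, 3, 5, 1, 9, 0, 10, 2], [9, 2, 4, 11, 1, 6, 10, 5, 13,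
      8, 12, 7, 3, 0], [2, 8, 3, 1, 4, 0, 11, 6, 7, 5, 10, 13, 9, 12], [8, 9, 10, 3, 13, 11, 7,
      0, 4, 6, 1, 12, 2, 5], [10, 0, 9, 13, 5, 7, 2, 11, 12, 3, 4, 6, 1, 8], [4, 13, 0, 7, 2,
      12, 5, 8, 1, 10, 11, 3, 6, 9]]
    (by decide +kernel)

/-- the value 11 in order 14 -/
theorem attains_14_11 : Attains 14 11 :=
  attains_of_check (n := 14) (h := 7) (by norm_num) (by norm_num)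
    [[4, 1, 2, 3, 8, 5, 6, 7, 9, 10, 11, 12, 13, 0], [0, 2, 3, 4, 5, 6, 7, 1, 8, 9, 10, 11, 12,
      13], [2, 3, 4, 5, 6, 7, 8, 9, 10, 11, 12, 13, 0, 1], [10, 4, 5, 6, 7, 8, 2, 3, 11, 12, 13,
      0, 1, 9], [8, 5, 6, 7, 4, 9, 10, 11, 12, 13, 0, 1, 2, 3], [5, 6, 7, 8, 9, 10, 11, 12, 13,
      0, 1, 2, 3, 4], [6, 7, 8, 9, 10, 11, 12, 13, 0, 1, 2, 3, 4, 5], [7, 8, 9, 10, 11, 12, 13,
      0, 1, 2, 3, 4, 5, 6], [1, 9, 10, 11, 12, 13, 0, 8, 2, 3, 4, 5, 6, 7], [9, 10, 11, 12, 13,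
      0, 1, 2, 3, 4, 5, 6, 7, 8], [3, 11, 12, 13, 0, 1, 9, 10, 4, 5, 6, 7, 8, 2], [11, 12, 13,
      0, 1, 2, 3, 4, 5, 6, 7, 8, 9, 10], [12, 13, 0, 1, 2, 3, 4, 5, 6, 7, 8, 9, 10, 11], [13, 0,
      1, 2, 3, 4, 5, 6, 7, 8, 9, 10, 11, 12]]
    [(1, 7), (8, 0), (8, 7), (3, 0), (3, 7), (10, 0), (10, 7), (3, 6), (3, 13), (10, 6), (10,
      13)]
    [[2, 7, 5, 3, 8, 13, 4, 6, 9, 10, 12, 0, 11, 1], [13, 9, 11, 2, 6, 3, 10, 4, 0, 12, 8, 1, 5,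
      7], [6, 3, 0, 8, 11, 12, 13, 5, 7, 1, 4, 2, 9, 10], [5, 6, 2, 0, 13, 4, 9, 7, 8, 3, 10,
      11, 1, 12], [8, 12, 4, 7, 9, 0, 1, 11, 6, 2, 5, 13, 10, 3], [12, 10, 13, 5, 1, 9, 6, 2, 3,
      11, 0, 7, 4, 8], [3, 4, 10, 11, 12, 8, 5, 0, 1, 13, 7, 9, 6, 2], [10, 0, 8, 6, 5, 2, 11,
      1, 12, 9, 3, 4, 7, 13], [1, 2, 6, 13, 7, 11, 12, 3, 4, 5, 9, 10, 8, 0], [9, 11, 12, 1, 3,
      10, 2, 13, 5, 7, 6, 8, 0, 4], [11, 8, 9, 4, 10, 1, 7, 12, 2, 0, 13, 6, 3, 5]]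
    (by decide +kernel)

/-- the certified values in order 14 -/
theorem attains_fourteen {m : ℕ} (hm : m ∈ [1, 2, 3, 5, 6, 7, 9, 10, 11]) : Attains 14 m := by
  simp only [List.mem_cons, List.not_mem_nil, or_false] at hm
  rcases hm with rfl | rfl | rfl | rfl | rfl | rfl | rfl | rfl | rfl
  · exact attains_14_1
  · exact attains_14_2
  · exact attains_14_3
  · exact attains_14_5
  · exact attains_14_6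
  · exact attains_14_7
  · exact attains_14_9
  · exact attains_14_10
  · exact attains_14_11

end Pool.Agent.Hhelper6.LT
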