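import Mathlib
import Pool.Agent.Hhelper6.LT.Check

set_option autoImplicit false

/-!
Order 18: the values m = 1, 2, 3, 5, 6, 7, 9, 10, 11, 13, 14, 15 (certificates found by a SAT solver).
-/

namespace Pool.Agent.Hhelper6.LT

open Pool.Agent.Hhelper79.LT

/-- the value 1 in order 18 -/
theorem attains_18_1 : Attains 18 1 :=
  attains_of_check (n := 18) (h := 9) (by norm_num) (by norm_num)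
    [[0, 1, 2, 3, 4, 5, 6, 7, 8, 9, 10, 11, 12, 15, 14, 16, 17, 13], [1, 2, 3, 4, 5, 6, 7, 8, 9,
      10, 11, 12, 13, 14, 15, 17, 16, 0], [2, 3, 4, 5, 6, 1, 8, 9, 10, 11, 12, 7, 14, 13, 16,
      15, 0, 17], [3, 4, 5, 6, 7, 8, 9, 10, 11, 12, 13, 14, 15, 16, 17, 0, 1, 2], [4, 5, 6, 7,
      8, 9, 10, 11, 12, 13, 14, 15, 16, 17, 0, 1, 2, 3], [5, 6, 7, 8, 9, 10, 11, 12, 13, 14, 15,
      16, 17, 0, 1, 2, 3, 4], [6, 7, 8, 9, 10, 11, 12, 13, 14, 15, 16, 17, 0, 1, 2, 3, 4, 5],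
      [7, 8, 9, 10, 11, 12, 13, 14, 15, 16, 17, 0, 1, 2, 3, 4, 5, 6], [8, 9, 10, 11, 12, 13, 14,
      15, 16, 17, 0, 1, 2, 3, 4, 5, 6, 7], [9, 10, 11, 12, 13, 14, 15, 16, 17, 0, 1, 2, 3, 4, 5,
      6, 7, 8], [10, 11, 12, 13, 14, 15, 16, 17, 0, 1, 2, 3, 4, 5, 6, 7, 8, 9], [11, 12, 13, 14,
      15, 16, 17, 0, 1, 2, 3, 4, 5, 6, 7, 8, 9, 10], [12, 13, 14, 15, 16, 17, 0, 1, 2, 3, 4, 5,
      6, 7, 8, 9, 10, 11], [13, 14, 15, 16, 17, 0, 1, 2, 3, 4, 5, 6, 7, 8, 9, 10, 11, 12], [14,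
      15, 16, 17, 0, 7, 2, 3, 4, 5, 6, 13, 8, 9, 10, 11, 12, 1], [15, 16, 17, 0, 1, 2, 3, 4, 5,
      6, 7, 8, 9, 10, 11, 12, 13, 14], [16, 17, 0, 1, 2, 3, 4, 5, 6, 7, 8, 9, 10, 11, 12, 13,
      14, 15], [17, 0, 1, 2, 3, 4, 5, 6, 7, 8, 9, 10, 11, 12, 13, 14, 15, 16]]
    [(1, 15)]
    [[17, 15, 11, 2, 4, 13, 0, 7, 3, 12, 5, 9, 16, 6, 8, 1, 14, 10]]
    (by decide +kernel)

/-- the value 2 in order 18 -/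
theorem attains_18_2 : Attains 18 2 :=
  attains_of_check (n := 18) (h := 9) (by norm_num) (by norm_num)
    [[5, 1, 2, 3, 4, 6, 7, 8, 9, 14, 10, 11, 12, 13, 15, 16, 17, 0], [1, 2, 3, 4, 9, 5, 6, 7, 8,
      10, 11, 12, 13, 0, 14, 15, 16, 17], [2, 3, 4, 5, 6, 7, 8, 9, 10, 11, 12, 13, 14, 15, 16,
      17, 0, 1], [3, 4, 5, 6, 7, 8, 9, 10, 11, 12, 13, 14, 15, 16, 17, 0, 1, 2], [4, 5, 6, 7, 8,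
      9, 10, 11, 12, 13, 14, 15, 16, 17, 0, 1, 2, 3], [0, 6, 7, 8, 5, 10, 11, 12, 13, 9, 15, 16,
      17, 14, 1, 2, 3, 4], [6, 7, 8, 9, 10, 11, 12, 13, 14, 15, 16, 17, 0, 1, 2, 3, 4, 5], [7,
      8, 9, 10, 11, 12, 13, 14, 15, 16, 17, 0, 1, 2, 3, 4, 5, 6], [8, 9, 10, 11, 12, 13, 14, 15,
      16, 17, 0, 1, 2, 3, 4, 5, 6, 7], [9, 10, 11, 12, 13, 14, 15, 16, 17, 0, 1, 2, 3, 4, 5, 6,
      7, 8], [10, 11, 12, 13, 14, 15, 16, 17, 0, 1, 2, 3, 4, 5, 6, 7, 8, 9], [11, 12, 13, 14,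
      15, 16, 17, 0, 1, 2, 3, 4, 5, 6, 7, 8, 9, 10], [12, 13, 14, 15, 16, 17, 0, 1, 2, 3, 4, 5,
      6, 7, 8, 9, 10, 11], [13, 14, 15, 16, 17, 0, 1, 2, 3, 4, 5, 6, 7, 8, 9, 10, 11, 12], [14,
      15, 16, 17, 0, 1, 2, 3, 4, 5, 6, 7, 8, 9, 10, 11, 12, 13], [15, 16, 17, 0, 1, 2, 3, 4, 5,
      6, 7, 8, 9, 10, 11, 12, 13, 14], [16, 17, 0, 1, 2, 3, 4, 5, 6, 7, 8, 9, 10, 11, 12, 13,
      14, 15], [17, 0, 1, 2, 3, 4, 5, 6, 7, 8, 9, 10, 11, 12, 13, 14, 15, 16]]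
    [(0, 0), (0, 9)]
    [[0, 13, 1, 3, 4, 5, 7, 2, 8, 11, 9, 6, 10, 12, 15, 17, 14, 16], [9, 4, 5, 2, 0, 1, 12, 3,
      11, 6, 7, 10, 8, 13, 16, 14, 15, 17]]
    (by decide +kernel)

/-- the value 3 in order 18 -/
theorem attains_18_3 : Attains 18 3 :=
  attains_of_check (n := 18) (h := 9) (by norm_num) (by norm_num)
    [[5, 1, 2, 3, 4, 10, 6, 7, 8, 9, 11, 12, 13, 14, 15, 16, 17, 0], [0, 2, 3, 4, 5, 6, 7, 8, 9,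
      1, 10, 11, 12, 13, 14, 15, 16, 17], [2, 3, 4, 5, 6, 7, 8, 9, 10, 11, 12, 13, 14, 15, 16,
      17, 0, 1], [3, 4, 5, 6, 7, 8, 9, 10, 11, 12, 13, 14, 15, 16, 17, 0, 1, 2], [4, 5, 6, 7, 8,
      9, 10, 11, 12, 13, 14, 15, 16, 17, 0, 1, 2, 3], [10, 6, 7, 8, 9, 5, 11, 12, 13, 14, 15,
      16, 17, 0, 1, 2, 3, 4], [6, 7, 8, 9, 10, 11, 12, 13, 14, 15, 16, 17, 0, 1, 2, 3, 4, 5],
      [7, 8, 9, 10, 11, 12, 13, 14, 15, 16, 17, 0, 1, 2, 3, 4, 5, 6], [8, 9, 10, 11, 12, 13, 14,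
      15, 16, 17, 0, 1, 2, 3, 4, 5, 6, 7], [9, 10, 11, 12, 13, 14, 15, 16, 17, 0, 1, 2, 3, 4, 5,
      6, 7, 8], [1, 11, 12, 13, 14, 15, 16, 17, 0, 10, 2, 3, 4, 5, 6, 7, 8, 9], [11, 12, 13, 14,
      15, 16, 17, 0, 1, 2, 3, 4, 5, 6, 7, 8, 9, 10], [12, 13, 14, 15, 16, 17, 0, 1, 2, 3, 4, 5,
      6, 7, 8, 9, 10, 11], [13, 14, 15, 16, 17, 0, 1, 2, 3, 4, 5, 6, 7, 8, 9, 10, 11, 12], [14,
      15, 16, 17, 0, 1, 2, 3, 4, 5, 6, 7, 8, 9, 10, 11, 12, 13], [15, 16, 17, 0, 1, 2, 3, 4, 5,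
      6, 7, 8, 9, 10, 11, 12, 13, 14], [16, 17, 0, 1, 2, 3, 4, 5, 6, 7, 8, 9, 10, 11, 12, 13,
      14, 15], [17, 0, 1, 2, 3, 4, 5, 6, 7, 8, 9, 10, 11, 12, 13, 14, 15, 16]]
    [(1, 9), (10, 0), (10, 9)]
    [[3, 9, 8, 2, 0, 1, 6, 4, 10, 11, 7, 5, 13, 14, 12, 16, 17, 15], [2, 4, 5, 1, 8, 6, 3, 11,
      9, 7, 0, 10, 12, 13, 14, 17, 15, 16], [4, 2, 0, 3, 1, 10, 5, 6, 11, 8, 9, 7, 14, 12, 13,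
      15, 16, 17]]
    (by decide +kernel)

/-- the value 5 in order 18 -/
theorem attains_18_5 : Attains 18 5 :=
  attains_of_check (n := 18) (h := 9) (by norm_num) (by norm_num)
    [[0, 1, 2, 3, 4, 5, 6, 7, 8, 9, 10, 11, 12, 15, 14, 16, 17, 13], [1, 2, 3, 4, 5, 6, 7, 8, 9,
      10, 11, 12, 13, 14, 15, 17, 16, 0], [2, 3, 4, 5, 6, 1, 8, 9, 10, 11, 12, 7, 14, 13, 16,
      15, 0, 17], [3, 4, 5, 6, 7, 8, 9, 10, 11, 12, 13, 14, 15, 16, 17, 0, 1, 2], [4, 5, 6, 7,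
      8, 9, 10, 11, 12, 13, 14, 15, 16, 17, 0, 1, 2, 3], [5, 6, 7, 8, 9, 10, 11, 12, 13, 14, 15,
      16, 17, 0, 1, 2, 3, 4], [6, 7, 17, 9, 10, 11, 12, 13, 14, 15, 16, 8, 0, 1, 2, 3, 4, 5],
      [7, 8, 9, 10, 11, 12, 13, 14, 15, 16, 17, 0, 1, 2, 3, 4, 5, 6], [8, 9, 10, 11, 12, 13, 14,
      15, 16, 17, 0, 1, 2, 3, 4, 5, 6, 7], [9, 10, 11, 12, 13, 14, 15, 16, 17, 0, 1, 2, 3, 4, 5,
      6, 7, 8], [10, 11, 12, 13, 14, 15, 16, 17, 0, 1, 2, 3, 4, 5, 6, 7, 8, 9], [11, 12, 13, 14,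
      15, 16, 17, 0, 1, 2, 3, 4, 5, 6, 7, 8, 9, 10], [12, 13, 14, 15, 16, 17, 0, 1, 2, 3, 4, 5,
      6, 7, 8, 9, 10, 11], [13, 14, 15, 16, 17, 0, 1, 2, 3, 4, 5, 6, 7, 8, 9, 10, 11, 12], [14,
      15, 16, 17, 0, 7, 2, 3, 4, 5, 6, 13, 8, 9, 10, 11, 12, 1], [15, 16, 8, 0, 1, 2, 3, 4, 5,
      6, 7, 17, 9, 10, 11, 12, 13, 14], [16, 17, 0, 1, 2, 3, 4, 5, 6, 7, 8, 9, 10, 11, 12, 13,
      14, 15], [17, 0, 1, 2, 3, 4, 5, 6, 7, 8, 9, 10, 11, 12, 13, 14, 15, 16]]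
    [(1, 15), (6, 2), (6, 11), (15, 2), (15, 11)]
    [[13, 15, 12, 6, 2, 3, 4, 9, 14, 11, 1, 10, 0, 5, 17, 16, 7, 8], [12, 10, 3, 13, 5, 14, 2,
      0, 16, 4, 8, 15, 9, 7, 1, 17, 6, 11], [14, 3, 4, 12, 15, 2, 11, 6, 8, 9, 13, 0, 16, 17, 7,
      5, 1, 10], [0, 13, 5, 3, 6, 15, 1, 16, 9, 7, 17, 4, 10, 8, 11, 2, 14, 12], [2, 17, 6, 16,
      3, 10, 8, 15, 4, 12, 0, 5, 1, 14, 9, 11, 13, 7]]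
    (by decide +kernel)

/-- the value 6 in order 18 -/
theorem attains_18_6 : Attains 18 6 :=
  attains_of_check (n := 18) (h := 9) (by norm_num) (by norm_num)
    [[5, 1, 2, 3, 4, 6, 7, 8, 9, 14, 10, 11, 12, 13, 15, 16, 17, 0], [1, 2, 3, 4, 9, 5, 6, 7, 8,
      10, 11, 12, 13, 0, 14, 15, 16, 17], [2, 3, 4, 5, 6, 7, 8, 9, 10, 11, 12, 13, 14, 15, 16,
      17, 0, 1], [3, 4, 5, 6, 7, 8, 9, 10, 11, 12, 13, 14, 15, 16, 17, 0, 1, 2], [4, 5, 6, 7, 8,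
      9, 10, 11, 12, 13, 14, 15, 16, 17, 0, 1, 2, 3], [0, 6, 7, 8, 5, 10, 11, 12, 13, 9, 15, 16,
      17, 14, 1, 2, 3, 4], [6, 7, 8, 9, 10, 11, 12, 13, 14, 15, 16, 17, 0, 1, 2, 3, 4, 5], [7,
      8, 9, 10, 11, 12, 13, 14, 15, 16, 17, 0, 1, 2, 3, 4, 5, 6], [8, 9, 1, 11, 12, 13, 14, 15,
      16, 17, 0, 10, 2, 3, 4, 5, 6, 7], [9, 10, 11, 12, 13, 14, 15, 16, 17, 0, 1, 2, 3, 4, 5, 6,
      7, 8], [10, 11, 12, 13, 14, 15, 16, 17, 0, 1, 2, 3, 4, 5, 6, 7, 8, 9], [11, 12, 13, 14,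
      15, 16, 17, 0, 1, 2, 3, 4, 5, 6, 7, 8, 9, 10], [12, 13, 14, 15, 16, 17, 0, 1, 2, 3, 4, 5,
      6, 7, 8, 9, 10, 11], [13, 14, 15, 16, 17, 0, 1, 2, 3, 4, 5, 6, 7, 8, 9, 10, 11, 12], [14,
      15, 16, 17, 0, 1, 2, 3, 4, 5, 6, 7, 8, 9, 10, 11, 12, 13], [15, 16, 17, 0, 1, 2, 3, 4, 5,
      6, 7, 8, 9, 10, 11, 12, 13, 14], [16, 17, 0, 1, 2, 3, 4, 5, 6, 7, 8, 9, 10, 11, 12, 13,
      14, 15], [17, 0, 10, 2, 3, 4, 5, 6, 7, 8, 9, 1, 11, 12, 13, 14, 15, 16]]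
    [(0, 0), (0, 9), (8, 2), (8, 11), (17, 2), (17, 11)]
    [[0, 13, 12, 3, 8, 11, 14, 10, 1, 17, 5, 2, 16, 6, 15, 7, 9, 4], [9, 4, 0, 2, 15, 10, 1, 3,
      16, 12, 6, 7, 5, 17, 8, 11, 13, 14], [7, 14, 4, 13, 17, 5, 16, 8, 2, 3, 1, 9, 6, 10, 11,
      12, 15, 0], [13, 1, 7, 15, 0, 2, 8, 5, 11, 6, 16, 12, 9, 4, 10, 14, 3, 17], [8, 15, 6, 11,
      1, 14, 5, 13, 4, 16, 7, 10, 12, 9, 17, 3, 0, 2], [12, 2, 3, 1, 5, 6, 0, 9, 10, 8, 4, 15,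
      13, 7, 14, 16, 17, 11]]
    (by decide +kernel)

/-- the value 7 in order 18 -/
theorem attains_18_7 : Attains 18 7 :=
  attains_of_check (n := 18) (h := 9) (by norm_num) (by norm_num)
    [[5, 1, 2, 3, 4, 10, 6, 7, 8, 9, 11, 12, 13, 14, 15, 16, 17, 0], [0, 2, 3, 4, 5, 6, 7, 8, 9,
      1, 10, 11, 12, 13, 14, 15, 16, 17], [2, 3, 4, 5, 6, 7, 8, 9, 10, 11, 12, 13, 14, 15, 16,
      17, 0, 1], [3, 4, 14, 6, 7, 8, 9, 10, 11, 12, 13, 5, 15, 16, 17, 0, 1, 2], [4, 5, 6, 7, 8,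
      9, 10, 11, 12, 13, 14, 15, 16, 17, 0, 1, 2, 3], [10, 6, 7, 8, 9, 5, 11, 12, 13, 14, 15,
      16, 17, 0, 1, 2, 3, 4], [6, 7, 8, 9, 10, 11, 12, 13, 14, 15, 16, 17, 0, 1, 2, 3, 4, 5],
      [7, 8, 9, 10, 11, 12, 13, 14, 15, 16, 17, 0, 1, 2, 3, 4, 5, 6], [8, 9, 10, 11, 12, 13, 14,
      15, 16, 17, 0, 1, 2, 3, 4, 5, 6, 7], [9, 10, 11, 12, 13, 14, 15, 16, 17, 0, 1, 2, 3, 4, 5,
      6, 7, 8], [1, 11, 12, 13, 14, 15, 16, 17, 0, 10, 2, 3, 4, 5, 6, 7, 8, 9], [11, 12, 13, 14,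
      15, 16, 17, 0, 1, 2, 3, 4, 5, 6, 7, 8, 9, 10], [12, 13, 5, 15, 16, 17, 0, 1, 2, 3, 4, 14,
      6, 7, 8, 9, 10, 11], [13, 14, 15, 16, 17, 0, 1, 2, 3, 4, 5, 6, 7, 8, 9, 10, 11, 12], [14,
      15, 16, 17, 0, 1, 2, 3, 4, 5, 6, 7, 8, 9, 10, 11, 12, 13], [15, 16, 17, 0, 1, 2, 3, 4, 5,
      6, 7, 8, 9, 10, 11, 12, 13, 14], [16, 17, 0, 1, 2, 3, 4, 5, 6, 7, 8, 9, 10, 11, 12, 13,
      14, 15], [17, 0, 1, 2, 3, 4, 5, 6, 7, 8, 9, 10, 11, 12, 13, 14, 15, 16]]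
    [(1, 9), (10, 0), (10, 9), (3, 2), (3, 11), (12, 2), (12, 11)]
    [[7, 9, 1, 5, 14, 11, 0, 4, 2, 8, 12, 3, 15, 10, 6, 16, 17, 13], [14, 17, 7, 15, 2, 3, 5, 9,
      6, 13, 0, 12, 1, 8, 16, 10, 4, 11], [10, 14, 5, 17, 0, 12, 15, 16, 8, 3, 9, 2, 6, 13, 1,
      4, 11, 7], [8, 6, 13, 2, 1, 4, 12, 14, 5, 11, 7, 0, 16, 9, 10, 15, 3, 17], [2, 7, 14, 11,
      8, 10, 13, 0, 1, 9, 3, 17, 12, 4, 15, 6, 16, 5], [1, 5, 12, 9, 17, 6, 16, 10, 0, 7, 8, 4,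
      2, 14, 11, 13, 15, 3], [6, 4, 0, 13, 3, 14, 7, 5, 9, 17, 1, 10, 11, 15, 8, 12, 2, 16]]
    (by decide +kernel)

/-- the value 9 in order 18 -/
theorem attains_18_9 : Attains 18 9 :=
  attains_of_check (n := 18) (h := 9) (by norm_num) (by norm_num)
    [[0, 1, 2, 3, 4, 5, 6, 7, 8, 9, 10, 11, 12, 15, 14, 16, 17, 13], [1, 2, 3, 4, 5, 6, 7, 8, 9,
      10, 11, 12, 13, 14, 15, 17, 16, 0], [2, 3, 4, 5, 6, 1, 8, 9, 10, 11, 12, 7, 14, 13, 16,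
      15, 0, 17], [3, 4, 5, 6, 7, 8, 9, 10, 11, 12, 13, 14, 15, 16, 17, 0, 1, 2], [4, 5, 6, 7,
      8, 9, 10, 11, 12, 13, 14, 15, 16, 17, 0, 1, 2, 3], [5, 6, 7, 8, 9, 10, 11, 12, 13, 14, 15,
      16, 17, 0, 1, 2, 3, 4], [6, 7, 17, 9, 10, 11, 3, 13, 14, 15, 16, 8, 0, 1, 2, 12, 4, 5],
      [7, 8, 9, 10, 11, 12, 13, 14, 15, 16, 17, 0, 1, 2, 3, 4, 5, 6], [8, 9, 10, 11, 12, 13, 14,
      15, 16, 17, 0, 1, 2, 3, 4, 5, 6, 7], [9, 10, 11, 12, 13, 14, 15, 16, 17, 0, 1, 2, 3, 4, 5,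
      6, 7, 8], [10, 11, 12, 13, 14, 15, 16, 17, 0, 1, 2, 3, 4, 5, 6, 7, 8, 9], [11, 12, 13, 14,
      15, 16, 17, 0, 1, 2, 3, 4, 5, 6, 7, 8, 9, 10], [12, 13, 14, 15, 16, 17, 0, 1, 2, 3, 4, 5,
      6, 7, 8, 9, 10, 11], [13, 14, 15, 16, 17, 0, 1, 2, 3, 4, 5, 6, 7, 8, 9, 10, 11, 12], [14,
      15, 16, 17, 0, 7, 2, 3, 4, 5, 6, 13, 8, 9, 10, 11, 12, 1], [15, 16, 8, 0, 1, 2, 12, 4, 5,
      6, 7, 17, 9, 10, 11, 3, 13, 14], [16, 17, 0, 1, 2, 3, 4, 5, 6, 7, 8, 9, 10, 11, 12, 13,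
      14, 15], [17, 0, 1, 2, 3, 4, 5, 6, 7, 8, 9, 10, 11, 12, 13, 14, 15, 16]]
    [(1, 15), (6, 2), (6, 11), (15, 2), (15, 11), (6, 6), (6, 15), (15, 6), (15, 15)]
    [[13, 15, 3, 11, 2, 8, 14, 4, 1, 9, 16, 10, 0, 6, 5, 7, 12, 17], [5, 17, 4, 9, 3, 10, 2, 6,
      11, 13, 0, 15, 8, 14, 7, 1, 16, 12], [1, 5, 0, 8, 17, 9, 11, 10, 4, 6, 12, 16, 13, 15, 2,
      3, 7, 14], [6, 11, 1, 16, 5, 13, 10, 3, 7, 14, 4, 9, 17, 12, 8, 2, 15, 0], [3, 8, 12, 13,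
      6, 0, 9, 15, 17, 10, 1, 2, 14, 5, 16, 11, 4, 7], [10, 7, 2, 3, 1, 15, 6, 11, 5, 8, 9, 14,
      4, 17, 0, 12, 13, 16], [8, 10, 5, 14, 16, 17, 15, 2, 6, 1, 13, 7, 12, 3, 11, 0, 9, 4], [7,
      2, 16, 1, 9, 14, 0, 13, 8, 5, 17, 12, 3, 4, 15, 6, 10, 11], [2, 6, 14, 10, 8, 12, 4, 7,
      16, 17, 5, 0, 11, 9, 13, 15, 3, 1]]
    (by decide +kernel)

/-- the value 10 in order 18 -/
theorem attains_18_10 : Attains 18 10 :=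
  attains_of_check (n := 18) (h := 9) (by norm_num) (by norm_num)
    [[5, 1, 2, 3, 4, 6, 7, 8, 9, 14, 10, 11, 12, 13, 15, 16, 17, 0], [1, 2, 3, 4, 9, 5, 6, 7, 8,
      10, 11, 12, 13, 0, 14, 15, 16, 17], [2, 3, 4, 5, 6, 16, 8, 9, 1, 11, 12, 13, 14, 15, 7,
      17, 0, 10], [3, 4, 5, 6, 7, 8, 9, 10, 11, 12, 13, 14, 15, 16, 17, 0, 1, 2], [4, 5, 6, 7,
      8, 9, 10, 11, 12, 13, 14, 15, 16, 17, 0, 1, 2, 3], [0, 6, 7, 8, 5, 10, 11, 12, 13, 9, 15,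
      16, 17, 14, 1, 2, 3, 4], [6, 7, 8, 9, 10, 11, 12, 13, 14, 15, 16, 17, 0, 1, 2, 3, 4, 5],
      [7, 8, 9, 10, 11, 12, 13, 14, 15, 16, 17, 0, 1, 2, 3, 4, 5, 6], [8, 9, 10, 11, 12, 13, 14,
      15, 16, 17, 0, 1, 2, 3, 4, 5, 6, 7], [9, 10, 11, 12, 13, 14, 15, 16, 17, 0, 1, 2, 3, 4, 5,
      6, 7, 8], [10, 11, 12, 13, 14, 15, 16, 17, 0, 1, 2, 3, 4, 5, 6, 7, 8, 9], [11, 12, 13, 14,
      15, 7, 17, 0, 10, 2, 3, 4, 5, 6, 16, 8, 9, 1], [12, 13, 14, 15, 16, 17, 0, 1, 2, 3, 4, 5,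
      6, 7, 8, 9, 10, 11], [13, 14, 15, 16, 17, 0, 1, 2, 3, 4, 5, 6, 7, 8, 9, 10, 11, 12], [14,
      15, 16, 17, 0, 1, 2, 3, 4, 5, 6, 7, 8, 9, 10, 11, 12, 13], [15, 16, 17, 0, 1, 2, 3, 4, 5,
      6, 7, 8, 9, 10, 11, 12, 13, 14], [16, 17, 0, 1, 2, 3, 4, 5, 6, 7, 8, 9, 10, 11, 12, 13,
      14, 15], [17, 0, 1, 2, 3, 4, 5, 6, 7, 8, 9, 10, 11, 12, 13, 14, 15, 16]]
    [(0, 0), (0, 9), (2, 8), (2, 17), (11, 8), (11, 17), (2, 5), (2, 14), (11, 5), (11, 14)]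
    [[0, 4, 9, 11, 16, 3, 6, 15, 13, 10, 7, 2, 12, 5, 14, 1, 17, 8], [9, 13, 4, 17, 1, 14, 7, 5,
      2, 8, 16, 10, 15, 3, 11, 0, 6, 12], [7, 16, 8, 1, 13, 10, 17, 2, 3, 4, 14, 9, 6, 12, 0,
      15, 5, 11], [6, 8, 17, 14, 9, 16, 5, 13, 11, 15, 2, 12, 3, 1, 4, 7, 0, 10], [3, 1, 7, 5,
      11, 12, 16, 9, 6, 14, 15, 8, 17, 0, 10, 4, 2, 13], [13, 2, 15, 4, 14, 5, 0, 7, 12, 3, 6,
      17, 10, 16, 1, 8, 11, 9], [1, 3, 5, 0, 8, 15, 12, 4, 7, 16, 17, 6, 2, 11, 9, 13, 10, 14],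
      [17, 5, 14, 6, 7, 1, 10, 12, 9, 13, 0, 3, 8, 2, 16, 11, 15, 4], [16, 15, 10, 13, 2, 8, 4,
      11, 14, 0, 1, 5, 9, 6, 12, 17, 7, 3], [12, 9, 3, 16, 5, 17, 8, 0, 10, 6, 11, 14, 1, 13,
      15, 2, 4, 7]]
    (by decide +kernel)

/-- the value 11 in order 18 -/
theorem attains_18_11 : Attains 18 11 :=
  attains_of_check (n := 18) (h := 9) (by norm_num) (by norm_num)
    [[5, 1, 2, 3, 4, 10, 6, 7, 8, 9, 11, 12, 13, 14, 15, 16, 17, 0], [0, 2, 3, 4, 5, 6, 7, 8, 9,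
      1, 10, 11, 12, 13, 14, 15, 16, 17], [2, 3, 4, 5, 6, 7, 8, 9, 10, 11, 12, 13, 14, 15, 16,
      17, 0, 1], [3, 4, 5, 6, 16, 8, 0, 10, 11, 12, 13, 14, 15, 7, 17, 9, 1, 2], [4, 5, 6, 7, 8,
      9, 10, 11, 12, 13, 14, 15, 16, 17, 0, 1, 2, 3], [10, 6, 7, 8, 9, 5, 11, 12, 13, 14, 15,
      16, 17, 0, 1, 2, 3, 4], [6, 7, 8, 9, 10, 11, 12, 13, 14, 15, 16, 17, 0, 1, 2, 3, 4, 5],
      [7, 8, 9, 10, 11, 12, 13, 14, 15, 16, 17, 0, 1, 2, 3, 4, 5, 6], [8, 9, 10, 11, 12, 13, 14,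
      15, 16, 17, 0, 1, 2, 3, 4, 5, 6, 7], [9, 10, 11, 12, 13, 14, 15, 16, 17, 0, 1, 2, 3, 4, 5,
      6, 7, 8], [1, 11, 12, 13, 14, 15, 16, 17, 0, 10, 2, 3, 4, 5, 6, 7, 8, 9], [11, 12, 13, 14,
      15, 16, 17, 0, 1, 2, 3, 4, 5, 6, 7, 8, 9, 10], [12, 13, 14, 15, 7, 17, 9, 1, 2, 3, 4, 5,
      6, 16, 8, 0, 10, 11], [13, 14, 15, 16, 17, 0, 1, 2, 3, 4, 5, 6, 7, 8, 9, 10, 11, 12], [14,
      15, 16, 17, 0, 1, 2, 3, 4, 5, 6, 7, 8, 9, 10, 11, 12, 13], [15, 16, 17, 0, 1, 2, 3, 4, 5,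
      6, 7, 8, 9, 10, 11, 12, 13, 14], [16, 17, 0, 1, 2, 3, 4, 5, 6, 7, 8, 9, 10, 11, 12, 13,
      14, 15], [17, 0, 1, 2, 3, 4, 5, 6, 7, 8, 9, 10, 11, 12, 13, 14, 15, 16]]
    [(1, 9), (10, 0), (10, 9), (3, 6), (3, 15), (12, 6), (12, 15), (3, 4), (3, 13), (12, 4),
      (12, 13)]
    [[7, 9, 13, 5, 12, 15, 8, 17, 10, 3, 1, 16, 11, 0, 14, 2, 6, 4], [6, 8, 2, 10, 16, 11, 1, 7,
      13, 17, 0, 4, 5, 15, 9, 3, 14, 12], [15, 11, 16, 0, 4, 12, 14, 5, 1, 13, 9, 2, 3, 6, 10,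
      17, 7, 8], [13, 15, 7, 6, 3, 1, 11, 9, 0, 4, 12, 17, 8, 10, 16, 14, 5, 2], [10, 14, 4, 15,
      1, 3, 13, 6, 7, 16, 8, 11, 9, 17, 2, 5, 12, 0], [11, 0, 12, 2, 15, 16, 4, 1, 14, 8, 5, 9,
      6, 3, 17, 10, 13, 7], [2, 6, 8, 1, 17, 4, 9, 10, 5, 7, 14, 12, 15, 16, 0, 11, 3, 13], [17,
      13, 15, 4, 11, 6, 0, 12, 2, 5, 16, 1, 10, 14, 7, 8, 9, 3], [16, 12, 14, 13, 10, 17, 5, 3,
      15, 0, 11, 7, 1, 2, 6, 4, 8, 9], [8, 2, 17, 3, 13, 7, 12, 16, 6, 1, 10, 5, 4, 9, 15, 0,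
      11, 14], [14, 17, 3, 7, 9, 2, 6, 15, 16, 11, 4, 0, 13, 8, 5, 12, 10, 1]]
    (by decide +kernel)

/-- the value 13 in order 18 -/
theorem attains_18_13 : Attains 18 13 :=
  attains_of_check (n := 18) (h := 9) (by norm_num) (by norm_num)
    [[0, 1, 2, 3, 4, 5, 6, 7, 8, 9, 10, 11, 12, 15, 14, 16, 17, 13], [1, 2, 3, 4, 5, 6, 7, 8, 9,
      10, 11, 12, 13, 14, 15, 17, 16, 0], [2, 3, 4, 5, 6, 1, 8, 9, 10, 11, 12, 7, 14, 13, 16,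
      15, 0, 17], [3, 13, 14, 6, 7, 8, 9, 10, 2, 12, 4, 5, 15, 16, 17, 0, 1, 11], [4, 5, 6, 7,
      8, 9, 10, 11, 12, 13, 14, 15, 16, 17, 0, 1, 2, 3], [5, 6, 7, 8, 9, 10, 11, 12, 13, 14, 15,
      16, 17, 0, 1, 2, 3, 4], [6, 7, 8, 9, 10, 11, 12, 13, 14, 15, 16, 17, 0, 1, 2, 3, 4, 5],
      [7, 8, 9, 10, 11, 12, 13, 14, 15, 16, 17, 0, 1, 2, 3, 4, 5, 6], [8, 9, 10, 11, 12, 13, 14,
      15, 16, 17, 0, 1, 2, 3, 4, 5, 6, 7], [9, 10, 11, 12, 13, 14, 15, 16, 17, 0, 1, 2, 3, 4, 5,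
      6, 7, 8], [10, 11, 12, 13, 14, 15, 16, 17, 0, 1, 2, 3, 4, 5, 6, 7, 8, 9], [11, 12, 13, 14,
      15, 16, 17, 0, 1, 2, 3, 4, 5, 6, 7, 8, 9, 10], [12, 4, 5, 15, 16, 17, 0, 1, 11, 3, 13, 14,
      6, 7, 8, 9, 10, 2], [13, 14, 15, 16, 17, 0, 1, 2, 3, 4, 5, 6, 7, 8, 9, 10, 11, 12], [14,
      15, 16, 17, 0, 7, 2, 3, 4, 5, 6, 13, 8, 9, 10, 11, 12, 1], [15, 16, 17, 0, 1, 2, 3, 4, 5,
      6, 7, 8, 9, 10, 11, 12, 13, 14], [16, 17, 0, 1, 2, 3, 4, 5, 6, 7, 8, 9, 10, 11, 12, 13,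
      14, 15], [17, 0, 1, 2, 3, 4, 5, 6, 7, 8, 9, 10, 11, 12, 13, 14, 15, 16]]
    [(1, 15), (3, 1), (3, 10), (12, 1), (12, 10), (3, 8), (3, 17), (12, 8), (12, 17), (3, 2),
      (3, 11), (12, 2), (12, 11)]
    [[13, 15, 8, 0, 9, 17, 14, 4, 1, 3, 6, 7, 12, 10, 5, 11, 16, 2], [2, 4, 14, 1, 10, 3, 5, 17,
      11, 16, 8, 6, 15, 9, 7, 0, 12, 13], [14, 17, 3, 10, 6, 15, 1, 9, 13, 2, 5, 8, 0, 4, 12,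
      16, 11, 7], [7, 11, 0, 13, 17, 10, 3, 12, 5, 8, 4, 15, 1, 16, 14, 9, 2, 6], [9, 2, 16, 14,
      4, 11, 0, 8, 17, 5, 13, 1, 10, 15, 6, 7, 3, 12], [12, 3, 1, 8, 11, 6, 13, 7, 2, 17, 14,
      16, 4, 5, 9, 10, 15, 0], [8, 9, 4, 17, 1, 13, 7, 14, 6, 10, 15, 11, 5, 2, 16, 12, 0, 3],
      [3, 5, 7, 4, 13, 0, 12, 6, 14, 11, 9, 17, 8, 1, 2, 15, 10, 16], [1, 13, 6, 15, 2, 16, 11,
      5, 7, 4, 0, 12, 17, 3, 8, 14, 9, 10], [4, 14, 11, 2, 12, 8, 6, 10, 15, 0, 1, 13, 16, 7,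
      17, 3, 5, 9], [10, 12, 2, 11, 8, 4, 15, 0, 16, 9, 7, 3, 14, 6, 1, 5, 13, 17], [11, 7, 12,
      9, 15, 5, 16, 13, 10, 6, 17, 14, 2, 0, 3, 1, 8, 4], [6, 0, 10, 12, 5, 2, 17, 15, 3, 7, 16,
      9, 11, 8, 4, 13, 1, 14]]
    (by decide +kernel)

/-- the value 14 in order 18 -/
theorem attains_18_14 : Attains 18 14 :=
  attains_of_check (n := 18) (h := 9) (by norm_num) (by norm_num)
    [[5, 1, 2, 3, 4, 6, 7, 8, 9, 14, 10, 11, 12, 13, 15, 16, 17, 0], [1, 2, 3, 4, 9, 5, 6, 7, 8,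
      10, 11, 12, 13, 0, 14, 15, 16, 17], [2, 3, 4, 5, 6, 7, 8, 9, 10, 11, 12, 13, 14, 15, 16,
      17, 0, 1], [3, 4, 5, 15, 7, 8, 0, 10, 2, 12, 13, 14, 6, 16, 17, 9, 1, 11], [4, 5, 6, 7, 8,
      9, 10, 11, 12, 13, 14, 15, 16, 17, 0, 1, 2, 3], [0, 6, 7, 8, 5, 10, 11, 12, 13, 9, 15, 16,
      17, 14, 1, 2, 3, 4], [6, 7, 8, 9, 10, 11, 12, 13, 14, 15, 16, 17, 0, 1, 2, 3, 4, 5], [7,
      8, 9, 10, 11, 12, 13, 14, 15, 16, 17, 0, 1, 2, 3, 4, 5, 6], [8, 9, 10, 11, 12, 13, 14, 15,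
      16, 17, 0, 1, 2, 3, 4, 5, 6, 7], [9, 10, 11, 12, 13, 14, 15, 16, 17, 0, 1, 2, 3, 4, 5, 6,
      7, 8], [10, 11, 12, 13, 14, 15, 16, 17, 0, 1, 2, 3, 4, 5, 6, 7, 8, 9], [11, 12, 13, 14,
      15, 16, 17, 0, 1, 2, 3, 4, 5, 6, 7, 8, 9, 10], [12, 13, 14, 6, 16, 17, 9, 1, 11, 3, 4, 5,
      15, 7, 8, 0, 10, 2], [13, 14, 15, 16, 17, 0, 1, 2, 3, 4, 5, 6, 7, 8, 9, 10, 11, 12], [14,
      15, 16, 17, 0, 1, 2, 3, 4, 5, 6, 7, 8, 9, 10, 11, 12, 13], [15, 16, 17, 0, 1, 2, 3, 4, 5,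
      6, 7, 8, 9, 10, 11, 12, 13, 14], [16, 17, 0, 1, 2, 3, 4, 5, 6, 7, 8, 9, 10, 11, 12, 13,
      14, 15], [17, 0, 1, 2, 3, 4, 5, 6, 7, 8, 9, 10, 11, 12, 13, 14, 15, 16]]
    [(0, 0), (0, 9), (3, 8), (3, 17), (12, 8), (12, 17), (3, 3), (3, 12), (12, 3), (12, 12), (3,
      6), (3, 15), (12, 6), (12, 15)]
    [[0, 4, 15, 9, 11, 17, 8, 14, 5, 2, 6, 13, 16, 7, 12, 10, 3, 1], [9, 13, 11, 16, 0, 12, 6,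
      4, 1, 7, 15, 17, 14, 2, 10, 8, 5, 3], [16, 7, 14, 8, 4, 1, 5, 3, 13, 9, 12, 2, 11, 6, 0,
      15, 17, 10], [10, 2, 16, 17, 15, 3, 1, 13, 7, 8, 4, 5, 0, 11, 9, 12, 6, 14], [13, 1, 17,
      2, 12, 5, 3, 11, 4, 16, 14, 6, 8, 9, 7, 0, 10, 15], [15, 5, 8, 0, 2, 6, 9, 12, 10, 4, 16,
      14, 17, 1, 3, 7, 11, 13], [8, 6, 10, 3, 14, 2, 13, 16, 0, 5, 7, 11, 9, 15, 17, 1, 4, 12],
      [7, 14, 5, 12, 9, 16, 11, 15, 2, 0, 10, 8, 4, 17, 1, 3, 13, 6], [12, 0, 9, 4, 1, 11, 7,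
      10, 6, 13, 17, 15, 3, 8, 14, 5, 2, 16], [5, 16, 2, 11, 13, 7, 17, 1, 3, 10, 0, 9, 12, 14,
      4, 6, 15, 8], [11, 3, 12, 6, 16, 8, 2, 0, 15, 1, 5, 10, 7, 4, 13, 9, 14, 17], [4, 9, 1,
      15, 8, 10, 0, 6, 12, 17, 13, 7, 5, 3, 11, 14, 16, 2], [1, 11, 4, 14, 10, 15, 16, 8, 17,
      12, 3, 0, 6, 5, 2, 13, 7, 9], [2, 12, 7, 13, 17, 14, 4, 5, 16, 6, 1, 3, 15, 10, 8, 11, 9,
      0]]
    (by decide +kernel)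

/-- the value 15 in order 18 -/
theorem attains_18_15 : Attains 18 15 :=
  attains_of_check (n := 18) (h := 9) (by norm_num) (by norm_num)
    [[5, 1, 2, 3, 4, 10, 6, 7, 8, 9, 11, 12, 13, 14, 15, 16, 17, 0], [0, 2, 3, 4, 5, 6, 7, 8, 9,
      1, 10, 11, 12, 13, 14, 15, 16, 17], [2, 3, 4, 5, 6, 7, 8, 9, 10, 11, 12, 13, 14, 15, 16,
      17, 0, 1], [3, 4, 5, 6, 7, 8, 9, 10, 11, 12, 13, 14, 15, 16, 17, 0, 1, 2], [4, 5, 6, 7, 8,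
      9, 10, 11, 12, 13, 14, 15, 16, 17, 0, 1, 2, 3], [10, 6, 7, 8, 9, 5, 11, 12, 13, 14, 15,
      16, 17, 0, 1, 2, 3, 4], [15, 7, 17, 9, 10, 11, 12, 13, 5, 6, 16, 8, 0, 1, 2, 3, 4, 14],
      [7, 8, 9, 10, 11, 12, 13, 14, 15, 16, 17, 0, 1, 2, 3, 4, 5, 6], [8, 9, 10, 11, 12, 13, 14,
      15, 16, 17, 0, 1, 2, 3, 4, 5, 6, 7], [9, 10, 11, 12, 13, 14, 15, 16, 17, 0, 1, 2, 3, 4, 5,
      6, 7, 8], [1, 11, 12, 13, 14, 15, 16, 17, 0, 10, 2, 3, 4, 5, 6, 7, 8, 9], [11, 12, 13, 14,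
      15, 16, 17, 0, 1, 2, 3, 4, 5, 6, 7, 8, 9, 10], [12, 13, 14, 15, 16, 17, 0, 1, 2, 3, 4, 5,
      6, 7, 8, 9, 10, 11], [13, 14, 15, 16, 17, 0, 1, 2, 3, 4, 5, 6, 7, 8, 9, 10, 11, 12], [14,
      15, 16, 17, 0, 1, 2, 3, 4, 5, 6, 7, 8, 9, 10, 11, 12, 13], [6, 16, 8, 0, 1, 2, 3, 4, 14,
      15, 7, 17, 9, 10, 11, 12, 13, 5], [16, 17, 0, 1, 2, 3, 4, 5, 6, 7, 8, 9, 10, 11, 12, 13,
      14, 15], [17, 0, 1, 2, 3, 4, 5, 6, 7, 8, 9, 10, 11, 12, 13, 14, 15, 16]]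
    [(1, 9), (10, 0), (10, 9), (6, 8), (6, 17), (15, 8), (15, 17), (6, 2), (6, 11), (15, 2),
      (15, 11), (6, 0), (6, 9), (15, 0), (15, 9)]
    [[4, 9, 0, 11, 3, 13, 5, 10, 1, 7, 16, 2, 12, 8, 14, 15, 17, 6], [7, 3, 6, 14, 17, 8, 10, 5,
      2, 15, 0, 9, 11, 1, 4, 12, 13, 16], [8, 5, 11, 6, 16, 10, 1, 12, 13, 14, 9, 3, 0, 4, 15,
      7, 2, 17], [13, 17, 1, 5, 0, 7, 8, 2, 11, 9, 6, 14, 3, 15, 10, 16, 4, 12], [12, 16, 5, 2,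
      7, 15, 17, 8, 4, 0, 14, 11, 9, 6, 3, 13, 10, 1], [9, 2, 4, 13, 11, 17, 7, 3, 12, 16, 1,
      15, 6, 10, 5, 8, 14, 0], [14, 12, 16, 8, 5, 3, 4, 7, 9, 13, 15, 10, 1, 11, 6, 17, 0, 2],
      [3, 4, 12, 17, 6, 1, 2, 15, 7, 10, 8, 5, 13, 0, 16, 14, 11, 9], [17, 10, 13, 16, 2, 4, 11,
      14, 5, 3, 7, 0, 8, 12, 9, 1, 6, 15], [16, 15, 9, 7, 12, 14, 3, 0, 6, 11, 13, 1, 10, 5, 17,
      2, 8, 4], [6, 7, 10, 0, 1, 9, 12, 13, 14, 4, 5, 17, 15, 16, 2, 11, 3, 8], [10, 13, 7, 4,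
      14, 11, 0, 17, 15, 5, 2, 8, 16, 9, 12, 6, 1, 3], [11, 0, 14, 12, 15, 16, 9, 4, 17, 1, 3,
      6, 2, 13, 8, 5, 7, 10], [15, 14, 3, 9, 4, 2, 13, 6, 10, 8, 12, 16, 17, 7, 1, 0, 5, 11],
      [1, 6, 8, 3, 10, 12, 14, 16, 0, 2, 11, 7, 4, 17, 13, 9, 15, 5]]
    (by decide +kernel)

/-- the certified values in order 18 -/
theorem attains_eighteen {m : ℕ} (hm : m ∈ [1, 2, 3, 5, 6, 7, 9, 10, 11, 13, 14, 15]) : Attains 18 m := by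
  simp only [List.mem_cons, List.not_mem_nil, or_false] at hm
  rcases hm with rfl | rfl | rfl | rfl | rfl | rfl | rfl | rfl | rfl | rfl | rfl | rfl
  · exact attains_18_1
  · exact attains_18_2
  · exact attains_18_3
  · exact attains_18_5
  · exact attains_18_6
  · exact attains_18_7
  · exact attains_18_9
  · exact attains_18_10
  · exact attains_18_11
  · exact attains_18_13
  · exact attains_18_14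
  · exact attains_18_15

end Pool.Agent.Hhelper6.LT
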