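import Mathlib
import Pool.Agent.Hhelper6.LT.Check

set_option autoImplicit false

/-!
Small cases: order 16 (m = 1, 5) and order 20 (m = 5).
-/

namespace Pool.Agent.Hhelper6.LT

open Pool.Agent.Hhelper79.LT

/-- the value 1 in order 16 -/
theorem attains_16_1 : Attains 16 1 :=
  attains_of_check (n := 16) (h := 8) (by norm_num) (by norm_num)
    [[0, 1, 2, 6, 4, 5, 9, 7, 8, 13, 10, 11, 12, 14, 15, 3], [1, 2, 3, 4, 5, 6, 7, 8, 9, 10,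
      11, 12, 13, 0, 14, 15], [2, 3, 4, 5, 6, 7, 8, 9, 10, 11, 12, 13, 14, 15, 0, 1], [3, 4,
      5, 7, 8, 9, 6, 10, 11, 12, 13, 14, 15, 1, 2, 0], [4, 5, 6, 3, 7, 8, 10, 11, 12, 9, 14,
      15, 0, 13, 1, 2], [5, 6, 7, 8, 9, 10, 11, 12, 13, 14, 15, 0, 1, 2, 3, 4], [6, 7, 8, 9,
      10, 11, 12, 13, 14, 15, 0, 1, 2, 3, 4, 5], [7, 8, 9, 10, 11, 12, 13, 14, 15, 0, 1, 2,
      3, 4, 5, 6], [8, 9, 10, 11, 12, 13, 14, 15, 0, 1, 2, 3, 4, 5, 6, 7], [9, 10, 11, 12,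
      13, 14, 15, 0, 1, 2, 3, 4, 5, 6, 7, 8], [10, 11, 12, 13, 14, 15, 0, 1, 2, 3, 4, 5, 6,
      7, 8, 9], [11, 12, 13, 14, 15, 0, 1, 2, 3, 4, 5, 6, 7, 8, 9, 10], [12, 13, 14, 15, 0,
      1, 2, 3, 4, 5, 6, 7, 8, 9, 10, 11], [13, 14, 15, 0, 1, 2, 3, 4, 5, 6, 7, 8, 9, 10, 11,
      12], [14, 15, 0, 1, 2, 3, 4, 5, 6, 7, 8, 9, 10, 11, 12, 13], [15, 0, 1, 2, 3, 4, 5, 6,
      7, 8, 9, 10, 11, 12, 13, 14]]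
    [(3, 6)]
    [[5, 14, 0, 6, 13, 3, 1, 9, 2, 10, 7, 4, 8, 15, 11, 12]]
    (by decide +kernel)

/-- the value 5 in order 16 -/
theorem attains_16_5 : Attains 16 5 :=
  attains_of_check (n := 16) (h := 8) (by norm_num) (by norm_num)
    [[0, 1, 2, 6, 4, 5, 9, 7, 8, 13, 10, 11, 12, 14, 15, 3], [1, 2, 3, 4, 5, 6, 7, 8, 9, 10,
      11, 12, 13, 0, 14, 15], [10, 3, 4, 5, 6, 7, 8, 9, 2, 11, 12, 13, 14, 15, 0, 1], [3, 4,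
      5, 7, 8, 9, 6, 10, 11, 12, 13, 14, 15, 1, 2, 0], [4, 5, 6, 3, 7, 8, 10, 11, 12, 9, 14,
      15, 0, 13, 1, 2], [5, 6, 7, 8, 9, 10, 11, 12, 13, 14, 15, 0, 1, 2, 3, 4], [6, 7, 8, 9,
      10, 11, 12, 13, 14, 15, 0, 1, 2, 3, 4, 5], [7, 8, 9, 10, 11, 12, 13, 14, 15, 0, 1, 2,
      3, 4, 5, 6], [8, 9, 10, 11, 12, 13, 14, 15, 0, 1, 2, 3, 4, 5, 6, 7], [9, 10, 11, 12,
      13, 14, 15, 0, 1, 2, 3, 4, 5, 6, 7, 8], [2, 11, 12, 13, 14, 15, 0, 1, 10, 3, 4, 5, 6,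
      7, 8, 9], [11, 12, 13, 14, 15, 0, 1, 2, 3, 4, 5, 6, 7, 8, 9, 10], [12, 13, 14, 15, 0,
      1, 2, 3, 4, 5, 6, 7, 8, 9, 10, 11], [13, 14, 15, 0, 1, 2, 3, 4, 5, 6, 7, 8, 9, 10, 11,
      12], [14, 15, 0, 1, 2, 3, 4, 5, 6, 7, 8, 9, 10, 11, 12, 13], [15, 0, 1, 2, 3, 4, 5, 6,
      7, 8, 9, 10, 11, 12, 13, 14]]
    [(3, 6), (2, 0), (2, 8), (10, 0), (10, 8)]
    [[1, 14, 13, 6, 3, 4, 7, 0, 12, 9, 2, 5, 15, 8, 10, 11], [3, 1, 0, 15, 14, 7, 2, 13, 6,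
      4, 5, 8, 9, 10, 11, 12], [5, 2, 8, 1, 11, 3, 4, 7, 9, 0, 6, 12, 10, 14, 15, 13], [4,
      6, 1, 2, 10, 5, 3, 9, 7, 8, 0, 11, 12, 15, 13, 14], [2, 3, 4, 0, 1, 6, 9, 10, 5, 7, 8,
      13, 11, 12, 14, 15]]
    (by decide +kernel)

/-- the value 5 in order 20 -/
theorem attains_20_5 : Attains 20 5 :=
  attains_of_check (n := 20) (h := 10) (by norm_num) (by norm_num)
    [[6, 1, 2, 3, 4, 5, 12, 7, 8, 9, 10, 11, 18, 13, 14, 15, 16, 17, 0, 19], [11, 2, 3, 4,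
      5, 6, 7, 8, 9, 10, 1, 12, 13, 14, 15, 16, 17, 18, 19, 0], [0, 3, 4, 5, 6, 7, 8, 9, 10,
      11, 12, 13, 14, 15, 16, 17, 2, 19, 18, 1], [3, 4, 5, 6, 7, 8, 9, 10, 11, 12, 13, 14,
      15, 16, 17, 18, 19, 0, 1, 2], [4, 5, 6, 7, 8, 9, 10, 11, 12, 13, 14, 15, 16, 17, 18,
      19, 0, 1, 2, 3], [5, 6, 7, 8, 9, 10, 11, 12, 13, 14, 15, 16, 17, 18, 19, 0, 1, 2, 3,
      4], [2, 7, 8, 9, 10, 11, 6, 13, 14, 15, 16, 17, 12, 19, 0, 1, 18, 3, 4, 5], [7, 8, 9,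
      10, 11, 12, 13, 14, 15, 16, 17, 18, 19, 0, 1, 2, 3, 4, 5, 6], [8, 9, 10, 11, 12, 13,
      14, 15, 16, 17, 18, 19, 0, 1, 2, 3, 4, 5, 6, 7], [9, 10, 11, 12, 13, 14, 15, 16, 17,
      18, 19, 0, 1, 2, 3, 4, 5, 6, 7, 8], [10, 11, 12, 13, 14, 15, 16, 17, 18, 19, 0, 1, 2,
      3, 4, 5, 6, 7, 8, 9], [1, 12, 13, 14, 15, 16, 17, 18, 19, 0, 11, 2, 3, 4, 5, 6, 7, 8,
      9, 10], [12, 13, 14, 15, 16, 17, 18, 19, 0, 1, 2, 3, 4, 5, 6, 7, 8, 9, 10, 11], [13,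
      14, 15, 16, 17, 18, 19, 0, 1, 2, 3, 4, 5, 6, 7, 8, 9, 10, 11, 12], [14, 15, 16, 17,
      18, 19, 0, 1, 2, 3, 4, 5, 6, 7, 8, 9, 10, 11, 12, 13], [15, 16, 17, 18, 19, 0, 1, 2,
      3, 4, 5, 6, 7, 8, 9, 10, 11, 12, 13, 14], [16, 17, 18, 19, 0, 1, 2, 3, 4, 5, 6, 7, 8,
      9, 10, 11, 12, 13, 14, 15], [17, 18, 19, 0, 1, 2, 3, 4, 5, 6, 7, 8, 9, 10, 11, 12, 13,
      14, 15, 16], [18, 19, 0, 1, 2, 3, 4, 5, 6, 7, 8, 9, 10, 11, 12, 13, 14, 15, 16, 17],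
      [19, 0, 1, 2, 3, 4, 5, 6, 7, 8, 9, 10, 11, 12, 13, 14, 15, 16, 17, 18]]
    [(2, 16), (1, 0), (1, 10), (11, 0), (11, 10)]
    [[0, 4, 16, 1, 3, 5, 2, 9, 13, 11, 8, 6, 7, 10, 17, 18, 19, 12, 14, 15], [4, 0, 3, 6,
      19, 2, 14, 1, 8, 10, 11, 7, 5, 9, 12, 17, 18, 13, 15, 16], [3, 10, 4, 5, 1, 9, 7, 0,
      12, 13, 2, 8, 6, 11, 15, 16, 14, 18, 19, 17], [7, 1, 2, 3, 4, 8, 13, 5, 6, 9, 10, 0,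
      11, 12, 16, 14, 15, 19, 17, 18], [2, 3, 1, 4, 5, 0, 11, 6, 7, 12, 9, 10, 8, 13, 14,
      15, 16, 17, 18, 19]]
    (by decide +kernel)

end Pool.Agent.Hhelper6.LT
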